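import Pool.Agent.W854.IG.Main
import Pool.Agent.W337.IG.Vol

set_option autoImplicit false

/-!
# The plus phase is invariant under the horizontal shift
-/

open MeasureTheory Filter Topology

noncomputable section

namespace Pool.Agent.Y993.GM

open Pool.Agent.W854.IG Pool.Agent.W337.IG Pool.Agent.W74.IG.EXIST

/-- the shift of planar configurations -/
def shS (σ : Pt → Bool) : Pt → Bool := fun p => σ (p.1 + 1, p.2)

lemma continuous_shS : Continuous shS := continuous_pi fun _ => continuous_apply _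

/-- shift of the edges -/
def shEd (e : Pt × Bool) : Pt × Bool := ((e.1.1 - 1, e.1.2), e.2)

lemma shEd_inj : Function.Injective shEd := by
  rintro ⟨⟨a, b⟩, d⟩ ⟨⟨a', b'⟩, d'⟩ h
  unfold shEd at h
  simp only [Prod.mk.injEq] at h ⊢
  exact ⟨⟨by omega, h.1.2⟩, h.2⟩

lemma shift_avL (β : ℝ) (n : ℕ) (f : (Pt → Bool) → ℝ) :
    avL β (box n) (fun _ => true) (edges n) (fun σ => f (shS σ)) =
      av ((box n).map (shE (-1)).toEmbedding) (fun _ => true) ((edges n).image shEd) Prod.fst nb
        (fun _ => β) f := by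
  have hends : ∀ e : Pt × Bool, (shE (-1) e.1 = (shEd e).1 ∧ shE (-1) (nb e) = nb (shEd e)) ∨
      (shE (-1) e.1 = nb (shEd e) ∧ shE (-1) (nb e) = (shEd e).1) := by
    rintro ⟨⟨a, b⟩, d⟩
    left
    cases d <;> simp [shE, shEd, nb] <;> omega
  have h : ∀ g : (Pt → Bool) → ℝ, (fun σ : Pt → Bool => g (shS (fun p => σ (shE (-1) p)))) = g := by
    intro g
    funext σ
    congr 1
    funext p
    show σ (shE (-1) (p.1 + 1, p.2)) = σ p
    congr 1
    show ((p.1 + 1 + -1, p.2) : Pt) = p
    rw [add_neg_cancel_right]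
  unfold avL av
  rw [← Zg_map (shE (-1)) shEd shEd_inj hends β (box n) (edges n) (fun σ => f (shS σ)),
    ← Zg_map (shE (-1)) shEd shEd_inj hends β (box n) (edges n) (fun _ => 1), h f]

lemma mem_shbox {n : ℕ} {p : Pt} : p ∈ (box n).map (shE (-1)).toEmbedding ↔
    (-(n : ℤ) ≤ p.1 + 1 ∧ p.1 + 1 ≤ n) ∧ (-(n : ℤ) ≤ p.2 ∧ p.2 ≤ n) := by
  rw [Finset.mem_map]
  constructor
  · rintro ⟨q, hq, rfl⟩
    rw [mem_box] at hq
    show (-(n : ℤ) ≤ q.1 + -1 + 1 ∧ q.1 + -1 + 1 ≤ n) ∧ (-(n : ℤ) ≤ q.2 ∧ q.2 ≤ n)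
    omega
  · intro h
    refine ⟨(p.1 + 1, p.2), ?_, ?_⟩
    · rw [mem_box]
      exact h
    · show ((p.1 + 1 + -1, p.2) : Pt) = p
      rw [add_neg_cancel_right]

lemma mem_shedges {n : ℕ} {e : Pt × Bool} : e ∈ (edges n).image shEd ↔
    e.1 ∈ (box n).map (shE (-1)).toEmbedding ∨ nb e ∈ (box n).map (shE (-1)).toEmbedding := by
  rw [mem_shbox, mem_shbox, Finset.mem_image]
  constructor
  · rintro ⟨⟨⟨a, b⟩, d⟩, hq, rfl⟩
    rw [mem_edges, mem_box, mem_box] at hq
    unfold shEd
    cases d <;> simp only [nb_true, nb_false] at hq ⊢ <;> omega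
  · intro h
    obtain ⟨⟨a, b⟩, d⟩ := e
    refine ⟨((a + 1, b), d), ?_, ?_⟩
    · rw [mem_edges, mem_box, mem_box]
      cases d <;> simp only [nb_true, nb_false] at h ⊢ <;> omega
    · unfold shEd
      simp

lemma shift_le (β : ℝ) (hβ : 0 ≤ β) (n : ℕ) {f : (Pt → Bool) → ℝ} (hf : Monotone f) :
    avL β (box (n + 2)) (fun _ => true) (edges (n + 2)) f ≤
      avL β (box (n + 1)) (fun _ => true) (edges (n + 1)) (fun σ => f (shS σ)) ∧
    avL β (box (n + 1)) (fun _ => true) (edges (n + 1)) (fun σ => f (shS σ)) ≤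
      avL β (box n) (fun _ => true) (edges n) f := by
  rw [shift_avL]
  have hS := sand
  constructor
  · have h1 := (hS Pt (Pt × Bool) (edges (n + 2)) Prod.fst nb (fun _ => β) (fun _ _ => hβ)
      ((box (n + 1)).map (shE (-1)).toEmbedding) (box (n + 2)) (fun _ => true) (fun _ => true)
      (by
        intro p hp
        rw [mem_shbox] at hp
        rw [mem_box]
        push_cast at hp ⊢
        omega) f hf).1 (fun _ _ _ => rfl) (fun _ _ => le_rfl)
    have h2 := av_edges (Λ := (box (n + 1)).map (shE (-1)).toEmbedding) (fun _ => true)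
      Prod.fst nb (fun _ => β) f (E := (edges (n + 1)).image shEd) (E' := edges (n + 2))
      (by
        intro e he
        rw [mem_shedges, mem_shbox, mem_shbox] at he
        rw [mem_edges, mem_box, mem_box]
        push_cast at he ⊢
        omega)
      (by
        intro e _ he
        rw [mem_shedges, not_or] at he
        exact he)
    rw [h2] at h1
    exact h1
  · have h1 := (hS Pt (Pt × Bool) ((edges (n + 1)).image shEd) Prod.fst nb (fun _ => β)
      (fun _ _ => hβ) (box n) ((box (n + 1)).map (shE (-1)).toEmbedding) (fun _ => true)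
      (fun _ => true)
      (by
        intro p hp
        rw [mem_box] at hp
        rw [mem_shbox]
        push_cast
        omega) f hf).1 (fun _ _ _ => rfl) (fun _ _ => le_rfl)
    have h2 := av_edges (Λ := box n) (fun _ => true)
      Prod.fst nb (fun _ => β) f (E := edges n) (E' := (edges (n + 1)).image shEd)
      (by
        intro e he
        rw [mem_edges, mem_box, mem_box] at he
        rw [mem_shedges, mem_shbox, mem_shbox]
        push_cast
        omega)
      (by
        intro e _ he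
        rw [mem_edges, not_or] at he
        exact he)
    rw [h2] at h1
    exact h1

/-- the plus phase is invariant under the horizontal shift -/
theorem shift_inv {β : ℝ} (hβ : 0 ≤ β) {μ : Measure (Pt → Bool)} (hμ : IsPlusPhase β μ) :
    μ.map shS = μ := by
  obtain ⟨hprob, hconv⟩ := hμ
  have hms : Measurable shS := continuous_shS.measurable
  have hprob' : IsProbabilityMeasure (μ.map shS) := Measure.isProbabilityMeasure_map hms.aemeasurable
  -- monotone continuous functions
  have hmono : ∀ g : C(Pt → Bool, ℝ), Monotone (g : (Pt → Bool) → ℝ) →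
      ∫ σ, g σ ∂(μ.map shS) = ∫ σ, g σ ∂μ := by
    intro g hg
    rw [integral_map hms.aemeasurable g.continuous.aestronglyMeasurable]
    have l1 := hconv ⟨fun σ => g (shS σ), g.continuous.comp continuous_shS⟩
    simp only [ContinuousMap.coe_mk] at l1
    have l2 := hconv g
    have l1' : Tendsto (fun n => ∫ σ, g (shS σ) ∂(plusMeasure β (n + 1))) atTop
        (𝓝 (∫ σ, g (shS σ) ∂μ)) := l1.comp (tendsto_add_atTop_nat 1)
    have l2' : Tendsto (fun n => ∫ σ, g σ ∂(plusMeasure β (n + 2))) atTop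
        (𝓝 (∫ σ, g σ ∂μ)) := l2.comp (tendsto_add_atTop_nat 2)
    have b1 : ∀ n, ∫ σ, g σ ∂(plusMeasure β (n + 2)) ≤ ∫ σ, g (shS σ) ∂(plusMeasure β (n + 1)) := by
      intro n
      rw [plusMeasure_integral, plusMeasure_integral]
      exact (shift_le β hβ n hg).1
    have b2 : ∀ n, ∫ σ, g (shS σ) ∂(plusMeasure β (n + 1)) ≤ ∫ σ, g σ ∂(plusMeasure β n) := by
      intro n
      rw [plusMeasure_integral, plusMeasure_integral]
      exact (shift_le β hβ n hg).2
    have := tendsto_of_tendsto_of_tendsto_of_le_of_le l2' l2 b1 b2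
    exact tendsto_nhds_unique l1' this
  have hclos : ∀ g ∈ Submonoid.closure (Set.range chi),
      ∫ σ, g σ ∂(μ.map shS) = ∫ σ, g σ ∂μ := fun g hg => hmono g (closure_prop hg).1
  have halg : ∀ g ∈ Alg, ∫ σ, g σ ∂(μ.map shS) = ∫ σ, g σ ∂μ := by
    intro g hg
    have hg' : g ∈ Submodule.span ℝ (Submonoid.closure (Set.range chi) : Set C(Pt → Bool, ℝ)) := by
      rw [← Algebra.adjoin_eq_span]
      exact hg
    clear hg
    induction hg' using Submodule.span_induction with
    | mem x hx => exact hclos x hx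
    | zero => simp
    | add x y hx hy hx' hy' =>
      have h2 : ∀ ν : Measure (Pt → Bool), IsProbabilityMeasure ν →
          ∫ σ, (x + y) σ ∂ν = ∫ σ, x σ ∂ν + ∫ σ, y σ ∂ν := by
        intro ν hν
        rw [← integral_add (integrable_cont ν x) (integrable_cont ν y)]
        rfl
      rw [h2 _ hprob, h2 _ hprob', hx', hy']
    | smul c x hx hx' =>
      have h2 : ∀ ν : Measure (Pt → Bool), ∫ σ, (c • x) σ ∂ν = c * ∫ σ, x σ ∂ν := by
        intro ν
        rw [← integral_const_mul]
        rfl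
      rw [h2, h2, hx']
  apply ext_of_forall_integral_eq_of_IsFiniteMeasure
  intro f0
  obtain ⟨f, hf⟩ : ∃ f : C(Pt → Bool, ℝ), ∀ x, f x = f0 x := ⟨f0.toContinuousMap, fun _ => rfl⟩
  simp only [← hf]
  have key : ∀ ε : ℝ, 0 < ε → |∫ σ, f σ ∂(μ.map shS) - ∫ σ, f σ ∂μ| ≤ 0 + ε := by
    intro ε hε
    obtain ⟨⟨g, hg⟩, hgf⟩ := ContinuousMap.exists_mem_subalgebra_near_continuousMap_of_separatesPoints
      Alg Alg_sep f (ε / 3) (by positivity)
    simp only at hgf
    have h1 := halg g hg
    have h3 := integral_near (μ.map shS) f g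
    have h4 := integral_near μ f g
    rw [abs_le] at h3 h4 ⊢
    constructor <;> linarith [h3.1, h3.2, h4.1, h4.2]
  have h0 := le_of_forall_pos_le_add key
  have := abs_eq_zero.1 (le_antisymm h0 (abs_nonneg _))
  linarith

end Pool.Agent.Y993.GM
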