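import Pool.Agent.Y993.GM.GMeas
import Pool.Agent.Y993.GM.Shift

set_option autoImplicit false

/-!
# The projection of the critical planar Ising plus phase onto a line is a regular g-measure
-/

open MeasureTheory ProbabilityTheory Filter Topology

noncomputable section

namespace Pool.Agent.Y993.GM

open Pool.Agent.W854.IG Pool.Agent.W599.IGQ

theorem main {μ : Measure (Pt → Bool)} (hμ : IsPlusPhase βc μ) :
    IsProbabilityMeasure (μ.map toLine) ∧ (μ.map toLine).map (fun ω i => ω (i + 1)) = μ.map toLine ∧
    ∃ g : Bool → (ℕ → Bool) → ℝ, (∀ a, Continuous (g a)) ∧ (∀ a x, 0 < g a x) ∧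
      (∀ x, g true x + g false x = 1) ∧
      ∀ a, (μ.map toLine)⟦{ω | ω 0 = a} | MeasurableSpace.comap past inferInstance⟧ =ᵐ[μ.map toLine]
        fun ω => g a (past ω) := by
  have hmt : Measurable toLine := continuous_toLine.measurable
  have hprob := hμ.1
  refine ⟨Measure.isProbabilityMeasure_map hmt.aemeasurable, ?_, ?_⟩
  · have h1 := shift_inv βc_nonneg hμ
    have hsh : Measurable (fun (ω : Om) (i : ℤ) => ω (i + 1)) :=
      measurable_pi_lambda _ fun i => measurable_pi_apply _
    conv_rhs => rw [← h1]
    rw [Measure.map_map hsh hmt, Measure.map_map hmt continuous_shS.measurable]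
    rfl
  · obtain ⟨g, hg⟩ := exists_g
    refine ⟨g, g_continuous hg, fun a x => ?_, g_add hg, cond_eq hg hμ⟩
    exact lt_of_lt_of_le (by positivity) (g_lower hg a x)

end Pool.Agent.Y993.GM
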