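import Pool.Agent.Y993.GM.Slit

set_option autoImplicit false

/-!
# The slit box: the relation on the axis, from the reflection symmetry
-/

open Finset hiding box

noncomputable section

namespace Pool.Agent.Y993.GM

open Pool.Agent.W854.IG Pool.Agent.W599.IGQ

theorem Zg_sym (φ : Pt ≃ Pt) (ψ : Pt × Bool ≃ Pt × Bool)
    (hends : ∀ e, (φ e.1 = (ψ e).1 ∧ φ (nb e) = nb (ψ e)) ∨
      (φ e.1 = nb (ψ e) ∧ φ (nb e) = (ψ e).1))
    (J : Pt × Bool → ℝ) (Λ : Finset Pt) (E : Finset (Pt × Bool))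
    (hΛ : ∀ p, φ p ∈ Λ ↔ p ∈ Λ) (hE : ∀ e, ψ e ∈ E ↔ e ∈ E) (g : (Pt → Bool) → ℝ) :
    Zg Λ (fun _ => true) E Prod.fst nb J (fun σ => g (fun p => σ (φ p))) =
    Zg Λ (fun _ => true) E Prod.fst nb (fun e => J (ψ e)) g := by
  unfold Zg
  refine Finset.sum_bij' (fun σ _ => fun p => σ (φ p)) (fun σ _ => fun p => σ (φ.symm p))
    ?_ ?_ ?_ ?_ ?_
  · intro σ hσ
    rw [mem_cf] at hσ ⊢
    intro p hp
    exact hσ _ (fun h => hp ((hΛ p).1 h))
  · intro σ hσ
    rw [mem_cf] at hσ ⊢
    intro p hp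
    apply hσ
    intro h
    apply hp
    have := (hΛ (φ.symm p)).2 h
    rwa [φ.apply_symm_apply] at this
  · intro σ _
    funext p
    simp
  · intro σ _
    funext p
    simp
  · intro σ _
    congr 2
    unfold Hg
    symm
    refine Finset.sum_equiv ψ (fun e => (hE e).symm) ?_
    intro e _
    show J (ψ e) * (sp (σ (φ e.1)) * sp (σ (φ (nb e)))) =
      J (ψ e) * (sp (σ (ψ e).1) * sp (σ (nb (ψ e))))
    rcases hends e with ⟨h1, h2⟩ | ⟨h1, h2⟩
    · rw [h1, h2]
    · rw [h1, h2]
      ring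

/-- reflection of the vertices -/
def rV : Pt ≃ Pt where
  toFun p := (p.1, -p.2)
  invFun p := (p.1, -p.2)
  left_inv p := by ext <;> simp
  right_inv p := by ext <;> simp

/-- reflection of the edges -/
def rE : Pt × Bool ≃ Pt × Bool where
  toFun e := ((e.1.1, if e.2 then -e.1.2 else -e.1.2 - 1), e.2)
  invFun e := ((e.1.1, if e.2 then -e.1.2 else -e.1.2 - 1), e.2)
  left_inv e := by
    obtain ⟨⟨x, y⟩, d⟩ := e
    cases d <;> simp
  right_inv e := by
    obtain ⟨⟨x, y⟩, d⟩ := e
    cases d <;> simp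

lemma qJ_refl (n : ℕ) (J : Pt × Bool → ℝ) (p : Pt) :
    qJ n J (p.1, -p.2) = qJ n (fun e => J (rE e)) p := by
  unfold qJ
  congr 1
  refine Zg_sym rV rE ?_ J (dom n) (dE n) ?_ ?_ (fun σ => sp (σ p))
  · rintro ⟨⟨x, y⟩, d⟩
    cases d
    · right
      simp [rV, rE, nb]
      omega
    · left
      simp [rV, rE, nb]
  · rintro ⟨x, y⟩
    rw [mem_dom, mem_dom]
    simp only [rV, Equiv.coe_fn_mk]
    omega
  · rintro ⟨⟨x, y⟩, d⟩
    rw [mem_dE, mem_dE, mem_box, mem_box, mem_box, mem_box, mem_slit, mem_slit, mem_slit, mem_slit]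
    cases d
    · simp [rE, nb]
      omega
    · simp [rE, nb]
      omega

/-- the relation on the axis -/
lemma rel_x (n : ℕ) (hn : 1 ≤ n) {x : ℤ} (hx : 0 ≤ x) (hx' : x ≤ n) :
    q n x 0 (x + 1, 0) = (1 + √2) * q n x 0 (x, 0) := by
  have hn' : (1 : ℤ) ≤ n := by exact_mod_cast hn
  set U : Finset Pt := Finset.Icc 0 x ×ˢ ({0} : Finset ℤ) with hU
  have hmem : ∀ a b : ℤ, ((a, b) : Pt) ∈ U ↔ (0 ≤ a ∧ a ≤ x) ∧ b = 0 := by
    intro a b
    rw [hU, Finset.mem_product, Finset.mem_Icc, Finset.mem_singleton]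
  have hsub : U ⊆ dom n := by
    rintro ⟨a, b⟩ hp
    rw [hmem] at hp
    rw [mem_dom]
    simp only
    omega
  have hsg : ∀ a b : ℤ, sgn U ((a, b) : Pt) = if (0 ≤ a ∧ a ≤ x) ∧ b = 0 then -1 else 1 := by
    intro a b
    unfold sgn
    simp only [hmem]
  have he0 : (((x, 0) : Pt), true) ∈ dE n := by
    rw [mem_dE, mem_box, mem_box, mem_slit, mem_slit]
    simp only [nb_true]
    omega
  -- the mirror image of the disorder line
  set J : Pt × Bool → ℝ := fun e => sgs x 0 (rE e) with hJ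
  have hJv : ∀ a b : ℤ, J ((a, b), false) = if b = -1 ∧ 0 ≤ a ∧ a ≤ x then -βc else βc := by
    intro a b
    simp only [hJ, rE, Equiv.coe_fn_mk, Bool.false_eq_true, if_false]
    unfold sgs
    simp only [Bool.false_eq_true, false_and, true_and, false_or]
    by_cases h : b = -1 ∧ 0 ≤ a ∧ a ≤ x
    · rw [if_pos h, if_pos (by omega)]
    · rw [if_neg h, if_neg (by omega)]
  have hJh : ∀ a b : ℤ, J ((a, b), true) = βc := by
    intro a b
    simp only [hJ, rE, Equiv.coe_fn_mk, if_true]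
    unfold sgs
    simp only [Bool.true_eq_false, false_and, true_and, or_false]
    rw [if_neg (by omega)]
  have h0 : J ((x, 0), true) = βc := hJh _ _
  have h0' : sgs x 0 ((x, 0), true) *
      (sgn U ((x, 0) : Pt) * sgn U (nb ((x, 0), true))) = -βc := by
    rw [nb_true, hsg, hsg, if_pos (by omega), if_neg (by simp)]
    unfold sgs
    rw [if_neg]
    · ring
    · simp only [Bool.true_eq_false, false_and, true_and, or_false]; omega
  have h : ∀ e ∈ dE n, e ≠ (((x, 0) : Pt), true) →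
      sgs x 0 e * (sgn U e.1 * sgn U (nb e)) = J e := by
    rintro ⟨⟨a, b⟩, d⟩ he hne
    have hne' : ¬ (d = true ∧ a = x ∧ b = 0) := by
      rintro ⟨h1, h2, h3⟩
      exact hne (by rw [h1, h2, h3])
    rw [mem_dE, mem_box, mem_box, mem_slit, mem_slit] at he
    cases d
    · simp only [nb_false] at he hne' ⊢
      rw [hsg, hsg, hJv]
      unfold sgs
      simp only [Bool.false_eq_true, false_and, true_and, false_or]
      by_cases ha : 0 ≤ a ∧ a ≤ x
      · by_cases hb : b = 0
        · rw [if_pos ⟨hb, ha⟩, if_pos ⟨ha, hb⟩, if_neg (by omega), if_neg (by omega)]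
          ring
        · by_cases hb' : b = -1
          · rw [if_neg (by omega), if_neg (by omega), if_pos (by omega), if_pos (by omega)]
            ring
          · rw [if_neg (by omega), if_neg (by omega), if_neg (by omega), if_neg (by omega)]
            ring
      · rw [if_neg (by omega), if_neg (by omega), if_neg (by omega), if_neg (by omega)]
        ring
    · simp only [nb_true, true_and] at he hne' ⊢
      rw [hsg, hsg, hJh]
      unfold sgs
      simp only [Bool.true_eq_false, false_and, true_and, or_false]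
      rw [if_neg (show ¬ (a = x ∧ 1 ≤ b ∧ b ≤ 0) by omega)]
      by_cases hb : b = 0
      · by_cases ha : 0 ≤ a ∧ a ≤ x
        · rw [if_pos ⟨ha, hb⟩, if_pos (by omega)]
          ring
        · rw [if_neg (by omega), if_neg (by omega)]
          ring
      · rw [if_neg (by omega), if_neg (by omega)]
        ring
  have k1 := qJ_step_a n J (sgs x 0) U hsub _ he0 h0 h0' h
  simp only [nb_true] at k1
  rw [hsg, if_pos (by omega)] at k1
  have r1 : qJ n J (x, 0) = q n x 0 (x, 0) := by
    have := qJ_refl n (sgs x 0) (x, 0)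
    simp only [neg_zero] at this
    exact this.symm
  have r2 : qJ n J (x + 1, 0) = q n x 0 (x + 1, 0) := by
    have := qJ_refl n (sgs x 0) (x + 1, 0)
    simp only [neg_zero] at this
    exact this.symm
  rw [r1, r2] at k1
  have k2 : q n x 0 (x, 0) = -1 * (√2 * q n x 0 (x, 0) - q n x 0 (x + 1, 0)) := k1
  linarith

end Pool.Agent.Y993.GM
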