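import Pool.Agent.Y993.GM.Pot

set_option autoImplicit false

/-!
# The slit box: maximum principle and energy estimate for the potential
-/

open Finset hiding box

noncomputable section

namespace Pool.Agent.Y993.GM

open Pool.Agent.W854.IG Pool.Agent.W599.IGQ

section General
variable {P ι : Type} [DecidableEq P]

/-- graph Laplacian for the edge set `E` -/
def lapE (E : Finset ι) (a b : ι → P) (G : P → ℝ) (p : P) : ℝ :=
  ∑ e ∈ E, ((if a e = p then G (b e) - G p else 0) + (if b e = p then G (a e) - G p else 0))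

lemma green (Λ : Finset P) (E : Finset ι) (a b : ι → P) (G φ : P → ℝ)
    (hφ : ∀ p, p ∉ Λ → φ p = 0) :
    ∑ e ∈ E, (φ (a e) ^ 2 * G (a e) - φ (b e) ^ 2 * G (b e)) * (G (a e) - G (b e)) =
      -∑ p ∈ Λ, φ p ^ 2 * G p * lapE E a b G p := by
  unfold lapE
  simp only [Finset.mul_sum]
  rw [Finset.sum_comm, ← Finset.sum_neg_distrib]
  apply Finset.sum_congr rfl
  intro e _
  have key : ∀ u v : P, ∑ p ∈ Λ, φ p ^ 2 * G p * (if u = p then G v - G p else 0) =
      φ u ^ 2 * G u * (G v - G u) := by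
    intro u v
    by_cases hu : u ∈ Λ
    · rw [Finset.sum_eq_single u]
      · rw [if_pos rfl]
      · intro p _ hp
        rw [if_neg (Ne.symm hp), mul_zero]
      · exact fun h => absurd hu h
    · rw [hφ u hu, Finset.sum_eq_zero]
      · ring
      · intro p hp
        rw [if_neg (by rintro rfl; exact hu hp), mul_zero]
  simp only [mul_add, Finset.sum_add_distrib]
  rw [key, key]
  ring

/-- the energy estimate: if `0 ≤ G ≤ 1` is subharmonic in `Λ`, with `Δ G ≥ c G` at `o` -/
lemma energy (Λ : Finset P) (E : Finset ι) (a b : ι → P) (G φ : P → ℝ)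
    (hφ : ∀ p, p ∉ Λ → φ p = 0) (h0 : ∀ p, 0 ≤ G p) (h1 : ∀ e ∈ E, G (a e) ≤ 1 ∧ G (b e) ≤ 1)
    (hs : ∀ p ∈ Λ, 0 ≤ lapE E a b G p) (o : P) (ho : o ∈ Λ) (c : ℝ)
    (hc : c * G o ≤ lapE E a b G o) :
    c * (φ o * G o) ^ 2 ≤ ∑ e ∈ E, (φ (a e) - φ (b e)) ^ 2 := by
  have hg := green Λ E a b G φ hφ
  have s1 : φ o ^ 2 * G o * lapE E a b G o ≤ ∑ p ∈ Λ, φ p ^ 2 * G p * lapE E a b G p :=
    Finset.single_le_sum (f := fun p => φ p ^ 2 * G p * lapE E a b G p)
      (fun p hp => mul_nonneg (mul_nonneg (sq_nonneg _) (h0 p)) (hs p hp)) ho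
  have s2 : c * (φ o * G o) ^ 2 ≤ φ o ^ 2 * G o * lapE E a b G o := by
    have := mul_le_mul_of_nonneg_left hc (mul_nonneg (sq_nonneg (φ o)) (h0 o))
    calc c * (φ o * G o) ^ 2 = φ o ^ 2 * G o * (c * G o) := by ring
      _ ≤ _ := this
  have s3 : -∑ e ∈ E, (φ (a e) - φ (b e)) ^ 2 ≤
      ∑ e ∈ E, (φ (a e) ^ 2 * G (a e) - φ (b e) ^ 2 * G (b e)) * (G (a e) - G (b e)) := by
    rw [← Finset.sum_neg_distrib]
    apply Finset.sum_le_sum
    intro e he
    obtain ⟨ha, hb⟩ := h1 e he
    have ha0 := h0 (a e)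
    have hb0 := h0 (b e)
    have k1 : G (a e) * G (b e) ≤ 1 := mul_le_one₀ ha hb0 hb
    have k2 : (φ (a e) ^ 2 * G (a e) - φ (b e) ^ 2 * G (b e)) * (G (a e) - G (b e)) =
      (φ (a e) * G (a e) - φ (b e) * G (b e)) ^ 2 -
        G (a e) * G (b e) * (φ (a e) - φ (b e)) ^ 2 := by ring
    rw [k2]
    have k3 : G (a e) * G (b e) * (φ (a e) - φ (b e)) ^ 2 ≤ 1 * (φ (a e) - φ (b e)) ^ 2 :=
      mul_le_mul_of_nonneg_right k1 (sq_nonneg _)
    have k4 := sq_nonneg (φ (a e) * G (a e) - φ (b e) * G (b e))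
    linarith
  linarith

end General

/-- the indicator of an edge being present times an increment -/
def inc (n : ℕ) (G : Pt → ℝ) (e : Pt × Bool) (u v : Pt) : ℝ :=
  if e ∈ dE n then G u - G v else 0

/-- the graph Laplacian is the sum over the four directions -/
lemma lapE_eq (n : ℕ) (G : Pt → ℝ) (x y : ℤ) :
    lapE (dE n) Prod.fst nb G (x, y) =
      inc n G ((x, y), true) (x + 1, y) (x, y) + inc n G ((x, y), false) (x, y + 1) (x, y) +
      (inc n G ((x - 1, y), true) (x - 1, y) (x, y) +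
        inc n G ((x, y - 1), false) (x, y - 1) (x, y)) := by
  unfold lapE
  rw [Finset.sum_add_distrib]
  have k1 : ∑ e ∈ dE n, (if e.1 = ((x, y) : Pt) then G (nb e) - G (x, y) else 0) =
      inc n G ((x, y), true) (x + 1, y) (x, y) + inc n G ((x, y), false) (x, y + 1) (x, y) := by
    have : ∀ e ∈ dE n, (if e.1 = ((x, y) : Pt) then G (nb e) - G (x, y) else 0) =
        (if e = (((x, y) : Pt), true) then G (x + 1, y) - G (x, y) else 0) +
        (if e = (((x, y) : Pt), false) then G (x, y + 1) - G (x, y) else 0) := by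
      rintro ⟨⟨a, b⟩, d⟩ _
      by_cases h : a = x ∧ b = y
      · obtain ⟨rfl, rfl⟩ := h
        cases d <;> simp
      · rw [if_neg (by simpa using fun h1 h2 => h ⟨h1, h2⟩), if_neg (by simp; tauto),
          if_neg (by simp; tauto)]
        simp
    rw [Finset.sum_congr rfl this, Finset.sum_add_distrib, Finset.sum_ite_eq', Finset.sum_ite_eq']
    rfl
  have k2 : ∑ e ∈ dE n, (if nb e = ((x, y) : Pt) then G e.1 - G (x, y) else 0) =
      inc n G ((x - 1, y), true) (x - 1, y) (x, y) +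
        inc n G ((x, y - 1), false) (x, y - 1) (x, y) := by
    have : ∀ e ∈ dE n, (if nb e = ((x, y) : Pt) then G e.1 - G (x, y) else 0) =
        (if e = (((x - 1, y) : Pt), true) then G (x - 1, y) - G (x, y) else 0) +
        (if e = (((x, y - 1) : Pt), false) then G (x, y - 1) - G (x, y) else 0) := by
      rintro ⟨⟨a, b⟩, d⟩ _
      cases d
      · simp only [nb_false, Prod.mk.injEq, Bool.false_eq_true, and_false, if_false, and_true,
          zero_add]
        by_cases h : a = x ∧ b + 1 = y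
        · rw [if_pos h, if_pos (by omega), h.1, show b = y - 1 by omega]
        · rw [if_neg h, if_neg (by omega)]
      · simp only [nb_true, Prod.mk.injEq, Bool.true_eq_false, and_false, if_false, and_true,
          add_zero]
        by_cases h : a + 1 = x ∧ b = y
        · rw [if_pos h, if_pos (by omega), h.2, show a = x - 1 by omega]
        · rw [if_neg h, if_neg (by omega)]
    rw [Finset.sum_congr rfl this, Finset.sum_add_distrib, Finset.sum_ite_eq', Finset.sum_ite_eq']
    rfl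
  rw [k1, k2]

/-- the Laplacian of the potential (before taking the positive part) -/
def Hs (n : ℕ) (p : Pt) : ℝ := Hf n p.1 |p.2|

lemma Hs_out {n : ℕ} {p : Pt} (h : ¬ ((-(n : ℤ) ≤ p.1 ∧ p.1 ≤ n) ∧ (-(n : ℤ) ≤ p.2 ∧ p.2 ≤ n)))
    (h' : (-(n : ℤ) - 1 ≤ p.1 ∧ p.1 ≤ n + 1) ∧ (-(n : ℤ) - 1 ≤ p.2 ∧ p.2 ≤ n + 1)) :
    Hs n p = 1 := by
  unfold Hs
  by_cases hx : -(n : ℤ) ≤ p.1 ∧ p.1 ≤ n
  · have : |p.2| = n + 1 := by
      rcases abs_cases p.2 with ⟨h1, h2⟩ | ⟨h1, h2⟩ <;> omega
    rw [this, Hf_top]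
  · apply Hf_left n
    · rcases abs_cases p.2 with ⟨h1, h2⟩ | ⟨h1, h2⟩ <;> omega
    · omega

/-- subharmonicity at every vertex of the slit box -/
lemma sub_H (n : ℕ) (hn : 1 ≤ n) {p : Pt} (hp : p ∈ dom n) : 0 ≤ lapE (dE n) Prod.fst nb (Hs n) p := by
  obtain ⟨x, y⟩ := p
  rw [mem_dom] at hp
  simp only at hp
  rw [lapE_eq]
  have hE : (((x, y) : Pt), true) ∈ dE n := by
    rw [mem_dE, mem_box, mem_box, mem_slit, mem_slit]
    simp only [nb_true]
    omega
  have iE : inc n (Hs n) ((x, y), true) (x + 1, y) (x, y) = Hf n (x + 1) |y| - Hf n x |y| := by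
    unfold inc
    rw [if_pos hE]
    rfl
  have mN : (((x, y) : Pt), false) ∈ dE n ↔ ¬ (x ≤ -1 ∧ y = -1) := by
    rw [mem_dE, mem_box, mem_box, mem_slit, mem_slit]
    simp only [nb_false]
    omega
  have mS : (((x, y - 1) : Pt), false) ∈ dE n ↔ ¬ (x ≤ -1 ∧ y = 1) := by
    rw [mem_dE, mem_box, mem_box, mem_slit, mem_slit]
    simp only [nb_false]
    omega
  have mW : (((x - 1, y) : Pt), true) ∈ dE n ↔ ¬ (x = 0 ∧ y = 0 ∧ 1 ≤ n) := by
    rw [mem_dE, mem_box, mem_box, mem_slit, mem_slit]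
    simp only [nb_true]
    omega
  have iW : ¬ (x = 0 ∧ y = 0 ∧ 1 ≤ n) → inc n (Hs n) ((x - 1, y), true) (x - 1, y) (x, y) =
      Hf n (x - 1) |y| - Hf n x |y| := by
    intro h
    unfold inc
    rw [if_pos (mW.2 h)]
    rfl
  have iN : ¬ (x ≤ -1 ∧ y = -1) → inc n (Hs n) ((x, y), false) (x, y + 1) (x, y) =
      Hf n x |y + 1| - Hf n x |y| := by
    intro h
    unfold inc
    rw [if_pos (mN.2 h)]
    rfl
  have iS : ¬ (x ≤ -1 ∧ y = 1) → inc n (Hs n) ((x, y - 1), false) (x, y - 1) (x, y) =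
      Hf n x |y - 1| - Hf n x |y| := by
    intro h
    unfold inc
    rw [if_pos (mS.2 h)]
    rfl
  have iN0 : (x ≤ -1 ∧ y = -1) → inc n (Hs n) ((x, y), false) (x, y + 1) (x, y) = 0 := by
    intro h
    unfold inc
    rw [if_neg (fun h' => (mN.1 h') h)]
  have iS0 : (x ≤ -1 ∧ y = 1) → inc n (Hs n) ((x, y - 1), false) (x, y - 1) (x, y) = 0 := by
    intro h
    unfold inc
    rw [if_neg (fun h' => (mS.1 h') h)]
  have iW0 : (x = 0 ∧ y = 0 ∧ 1 ≤ n) → inc n (Hs n) ((x - 1, y), true) (x - 1, y) (x, y) = 0 := by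
    intro h
    unfold inc
    rw [if_neg (fun h' => (mW.1 h') h)]
  rw [iE]
  rcases lt_trichotomy y 0 with hy | hy | hy
  · -- lower half plane
    rw [iW (by omega), iS (by omega)]
    have e1 : |y| = -y := abs_of_neg hy
    have e2 : |y - 1| = -y + 1 := by rw [abs_of_neg (by omega)]; ring
    have e3 : |y + 1| = -y - 1 := by
      rw [abs_of_nonpos (by omega)]; ring
    rw [e1, e2]
    by_cases h1 : y = -1
    · by_cases hx : x ≤ -1
      · rw [iN0 ⟨hx, h1⟩]
        have := lap_slit n (x := x) (by omega) hx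
        subst h1
        norm_num at this ⊢
        linarith
      · rw [iN (fun h => hx h.1), e1, e3]
        have := lap_row n (x := x) (by omega) (by omega) (by omega)
        subst h1
        norm_num at this ⊢
        linarith
    · rw [iN (fun h => h1 h.2), e1, e3]
      have := lap_bulk n (x := x) (y := -y) (by omega) (by omega) (by omega) (by omega)
      linarith
  · subst hy
    rw [iN (by omega), iS (by omega)]
    simp only [abs_zero, zero_add, abs_one, zero_sub, abs_neg]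
    by_cases hx : x = 0
    · subst hx
      rw [iW0 ⟨rfl, rfl, hn⟩]
      have := lap_tip n hn
      have h2 : 0 ≤ 2 * (√2 - 1) * Hf n 0 0 := by
        have : 1 ≤ √2 := by
          rw [show (1 : ℝ) = √1 by simp]
          exact Real.sqrt_le_sqrt (by norm_num)
        rw [Hf_tip]
        exact mul_nonneg (by linarith) (sq_nonneg _)
      simp only [zero_add]
      linarith
    · rw [iW (fun h => hx h.1)]
      have := lap_axis n (x := x) (by omega) (by omega)
      simp only [abs_zero]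
      linarith
  · rw [iW (by omega), iN (by omega)]
    have e1 : |y| = y := abs_of_pos hy
    have e2 : |y - 1| = y - 1 := abs_of_nonneg (by omega)
    have e3 : |y + 1| = y + 1 := abs_of_pos (by omega)
    rw [e1, e3]
    by_cases h1 : y = 1
    · by_cases hx : x ≤ -1
      · rw [iS0 ⟨hx, h1⟩]
        have := lap_slit n (x := x) (by omega) hx
        subst h1
        norm_num at this ⊢
        linarith
      · rw [iS (fun h => hx h.1), e1, e2]
        have := lap_row n (x := x) (by omega) (by omega) (by omega)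
        subst h1
        norm_num at this ⊢
        linarith
    · rw [iS (fun h => h1 h.2), e1, e2]
      have := lap_bulk n (x := x) (y := y) (by omega) (by omega) (by omega) (by omega)
      linarith

/-- the value of the Laplacian at the tip -/
lemma tip_H (n : ℕ) (hn : 1 ≤ n) :
    2 * (√2 - 1) * Hs n (0, 0) ≤ lapE (dE n) Prod.fst nb (Hs n) (0, 0) := by
  have hn' : (1 : ℤ) ≤ n := by exact_mod_cast hn
  rw [lapE_eq]
  have hE : (((0, 0) : Pt), true) ∈ dE n := by
    rw [mem_dE, mem_box, mem_box, mem_slit, mem_slit]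
    simp only [nb_true]
    omega
  have hN : (((0, 0) : Pt), false) ∈ dE n := by
    rw [mem_dE, mem_box, mem_box, mem_slit, mem_slit]
    simp only [nb_false]
    omega
  have hS : (((0, 0 - 1) : Pt), false) ∈ dE n := by
    rw [mem_dE, mem_box, mem_box, mem_slit, mem_slit]
    simp only [nb_false]
    omega
  have hW : (((0 - 1, 0) : Pt), true) ∉ dE n := by
    intro h
    rw [mem_dE, mem_slit] at h
    exact h.2.1 ⟨⟨by dsimp only; omega, by norm_num⟩, rfl⟩
  unfold inc
  rw [if_pos hE, if_pos hN, if_pos hS, if_neg hW]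
  have := lap_tip n hn
  unfold Hs
  simp only [zero_add, zero_sub, abs_zero, abs_one, abs_neg]
  linarith

lemma nb_out {n : ℕ} {p u : Pt} (hp : p ∈ dom n) (hu : u ∉ slit n) (hud : u ∉ dom n)
    (h1 : p.1 - 1 ≤ u.1 ∧ u.1 ≤ p.1 + 1) (h2 : p.2 - 1 ≤ u.2 ∧ u.2 ≤ p.2 + 1) : Hs n u = 1 := by
  rw [mem_dom] at hp
  have h3 : u ∉ Pool.Agent.W854.IG.box n := fun h => hud (Finset.mem_sdiff.2 ⟨h, hu⟩)
  rw [mem_box] at h3
  exact Hs_out h3 (by omega)

/-- the maximum principle -/
lemma Hs_le_one (n : ℕ) (hn : 1 ≤ n) {p : Pt} (hp : p ∈ dom n) : Hs n p ≤ 1 := by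
  by_contra hcon
  rw [not_le] at hcon
  obtain ⟨m, hm, hmax⟩ := Finset.exists_max_image (dom n)
    (fun p => (toLex (Hs n p, p.1) : ℝ ×ₗ ℤ)) ⟨p, hp⟩
  have hle : ∀ u ∈ dom n, Hs n u < Hs n m ∨ (Hs n u = Hs n m ∧ u.1 ≤ m.1) := by
    intro u hu
    have := hmax u hu
    rw [Prod.Lex.toLex_le_toLex] at this
    exact this
  have hM : 1 < Hs n m := by
    rcases hle p hp with h | h
    · linarith
    · rw [← h.1]; exact hcon
  obtain ⟨x, y⟩ := m
  have hsub := sub_H n hn hm
  rw [lapE_eq] at hsub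
  have key : ∀ (e : Pt × Bool) (u : Pt), (e ∈ dE n → u ∉ slit n) →
      (x - 1 ≤ u.1 ∧ u.1 ≤ x + 1) → (y - 1 ≤ u.2 ∧ u.2 ≤ y + 1) →
      inc n (Hs n) e u (x, y) ≤ 0 := by
    intro e u he h1 h2
    unfold inc
    split_ifs with hin
    · by_cases hud : u ∈ dom n
      · rcases hle u hud with h | h
        · linarith
        · linarith [h.1]
      · rw [nb_out hm (he hin) hud h1 h2]
        linarith
    · exact le_rfl
  have kN := key ((x, y), false) (x, y + 1) (fun h => by
    rw [mem_dE] at h; simpa using h.2.2) (by constructor <;> (try dsimp only) <;> omega) (by constructor <;> (try dsimp only) <;> omega)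
  have kW := key ((x - 1, y), true) (x - 1, y) (fun h => by
    rw [mem_dE] at h; exact h.2.1) (by constructor <;> (try dsimp only) <;> omega) (by constructor <;> (try dsimp only) <;> omega)
  have kS := key ((x, y - 1), false) (x, y - 1) (fun h => by
    rw [mem_dE] at h; exact h.2.1) (by constructor <;> (try dsimp only) <;> omega) (by constructor <;> (try dsimp only) <;> omega)
  have kE : inc n (Hs n) ((x, y), true) (x + 1, y) (x, y) < 0 := by
    have hE : (((x, y) : Pt), true) ∈ dE n := by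
      rw [mem_dom] at hm
      rw [mem_dE, mem_box, mem_box, mem_slit, mem_slit]
      simp only [nb_true] at hm ⊢
      omega
    unfold inc
    rw [if_pos hE]
    by_cases hud : ((x + 1, y) : Pt) ∈ dom n
    · rcases hle _ hud with h | h
      · linarith
      · have := h.2
        simp at this
    · rw [nb_out hm (by rw [mem_dE] at hE; simpa using hE.2.2) hud (by constructor <;> (try dsimp only) <;> omega)
        (by constructor <;> (try dsimp only) <;> omega)]
      linarith
  linarith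

/-- positive part of the potential -/
def Gf (n : ℕ) (p : Pt) : ℝ := max (Hs n p) 0

lemma lapE_max {P ι : Type} [DecidableEq P] (E : Finset ι) (a b : ι → P) (H : P → ℝ) (p : P)
    (h : 0 ≤ lapE E a b H p) : 0 ≤ lapE E a b (fun u => max (H u) 0) p := by
  rcases le_total 0 (H p) with hp | hp
  · refine h.trans ?_
    unfold lapE
    apply Finset.sum_le_sum
    intro e _
    dsimp only
    rw [max_eq_left hp]
    have h1 := le_max_left (H (b e)) 0
    have h2 := le_max_left (H (a e)) 0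
    split_ifs <;> linarith
  · unfold lapE
    apply Finset.sum_nonneg
    intro e _
    dsimp only
    rw [max_eq_right hp]
    have h1 := le_max_right (H (b e)) 0
    have h2 := le_max_right (H (a e)) 0
    split_ifs <;> linarith

lemma lapE_le_max {P ι : Type} [DecidableEq P] (E : Finset ι) (a b : ι → P) (H : P → ℝ) (p : P)
    (hp : 0 ≤ H p) : lapE E a b H p ≤ lapE E a b (fun u => max (H u) 0) p := by
  unfold lapE
  apply Finset.sum_le_sum
  intro e _
  dsimp only
  rw [max_eq_left hp]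
  have h1 := le_max_left (H (b e)) 0
  have h2 := le_max_left (H (a e)) 0
  split_ifs <;> linarith

/-! ### the logarithmic cut-off -/

/-- harmonic numbers -/
def hn (k : ℕ) : ℝ := ∑ j ∈ Finset.range k, 1 / ((j : ℝ) + 1)

lemma hn_succ (k : ℕ) : hn (k + 1) = hn k + 1 / ((k : ℝ) + 1) := by
  unfold hn
  rw [Finset.sum_range_succ]

lemma hn_nonneg (k : ℕ) : 0 ≤ hn k := Finset.sum_nonneg (fun _ _ => by positivity)

lemma one_le_hn (k : ℕ) : 1 ≤ hn (k + 1) := by
  induction k with
  | zero => simp [hn]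
  | succ k ih =>
    rw [hn_succ]
    have : (0 : ℝ) ≤ 1 / (((k + 1 : ℕ) : ℝ) + 1) := by positivity
    linarith

lemma hn_tendsto : Filter.Tendsto hn Filter.atTop Filter.atTop :=
  Real.tendsto_sum_range_one_div_nat_succ_atTop

/-- the sup norm -/
def nrm (p : Pt) : ℕ := max p.1.natAbs p.2.natAbs

lemma nrm_le {p : Pt} {n : ℕ} : nrm p ≤ n ↔ p ∈ Pool.Agent.W854.IG.box n := by
  rw [mem_box]
  unfold nrm
  omega

lemma card_box (m : ℕ) : ((Pool.Agent.W854.IG.box m).card : ℝ) = (2 * m + 1) ^ 2 := by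
  unfold Pool.Agent.W854.IG.box
  rw [Finset.card_product, Int.card_Icc, show ((m : ℤ) + 1 - -(m : ℤ)).toNat = 2 * m + 1 by omega]
  push_cast
  ring

lemma box_sub (m : ℕ) : Pool.Agent.W854.IG.box m ⊆ Pool.Agent.W854.IG.box (m + 1) := by
  intro p hp
  rw [← nrm_le] at hp ⊢
  omega

lemma sum_box (m : ℕ) : ∑ p ∈ Pool.Agent.W854.IG.box m, 1 / (max 1 (nrm p : ℝ)) ^ 2 ≤
    1 + 8 * hn m := by
  induction m with
  | zero =>
    have : Pool.Agent.W854.IG.box 0 = {(0, 0)} := by
      ext ⟨x, y⟩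
      rw [mem_box, Finset.mem_singleton, Prod.mk.injEq]
      simp only [Nat.cast_zero]
      omega
    rw [this, Finset.sum_singleton]
    simp [nrm, hn]
  | succ m ih =>
    rw [← Finset.sum_sdiff (box_sub m), hn_succ]
    have h1 : ∑ p ∈ Pool.Agent.W854.IG.box (m + 1) \ Pool.Agent.W854.IG.box m,
        1 / (max 1 (nrm p : ℝ)) ^ 2 = 8 * (1 / ((m : ℝ) + 1)) := by
      have h2 : ∀ p ∈ Pool.Agent.W854.IG.box (m + 1) \ Pool.Agent.W854.IG.box m,
          1 / (max 1 (nrm p : ℝ)) ^ 2 = 1 / ((m : ℝ) + 1) ^ 2 := by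
        intro p hp
        rw [Finset.mem_sdiff, ← nrm_le, ← nrm_le] at hp
        have : nrm p = m + 1 := by omega
        rw [this]
        push_cast
        rw [max_eq_right (by linarith [show (0 : ℝ) ≤ m from Nat.cast_nonneg m])]
      rw [Finset.sum_congr rfl h2, Finset.sum_const, nsmul_eq_mul,
        Finset.cast_card_sdiff (box_sub m), card_box, card_box]
      push_cast
      field_simp
      ring
    rw [h1]
    linarith

/-- the cut-off -/
def ph (n : ℕ) (p : Pt) : ℝ := if p ∈ dom n then 1 - hn (nrm p) / hn (n + 1) else 0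

lemma ph_eq {n : ℕ} {p : Pt} (h1 : p ∉ slit n) (h2 : nrm p ≤ n + 1) :
    ph n p = 1 - hn (nrm p) / hn (n + 1) := by
  unfold ph
  split_ifs with h
  · rfl
  · have h3 : p ∉ Pool.Agent.W854.IG.box n := fun h' => h (Finset.mem_sdiff.2 ⟨h', h1⟩)
    rw [← nrm_le] at h3
    have h4 : nrm p = n + 1 := by omega
    rw [h4, div_self (by have := one_le_hn n; linarith), sub_self]

lemma hn_diff {a b : ℕ} (h : b = a ∨ b = a + 1 ∨ a = b + 1) :
    (hn a - hn b) ^ 2 ≤ 1 / (max 1 (a : ℝ)) ^ 2 := by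
  rcases h with h | h | h
  · subst h
    rw [sub_self, zero_pow two_ne_zero]
    positivity
  · subst h
    rw [hn_succ]
    have h1 : (hn a - (hn a + 1 / ((a : ℝ) + 1))) ^ 2 = 1 / ((a : ℝ) + 1) ^ 2 := by
      field_simp
      ring
    rw [h1]
    apply one_div_le_one_div_of_le
    · positivity
    · apply pow_le_pow_left₀ (by positivity)
      have := show (0 : ℝ) ≤ a from Nat.cast_nonneg a
      rw [max_le_iff]
      constructor <;> linarith
  · subst h
    rw [hn_succ]
    have h1 : (hn b + 1 / ((b : ℝ) + 1) - hn b) ^ 2 = 1 / ((b : ℝ) + 1) ^ 2 := by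
      field_simp
      ring
    rw [h1]
    push_cast
    have := show (0 : ℝ) ≤ b from Nat.cast_nonneg b
    rw [max_eq_right (by linarith)]

lemma nrm_nb (e : Pt × Bool) :
    nrm (nb e) = nrm e.1 ∨ nrm (nb e) = nrm e.1 + 1 ∨ nrm e.1 = nrm (nb e) + 1 := by
  obtain ⟨⟨x, y⟩, d⟩ := e
  unfold nrm
  cases d <;> simp only [nb_true, nb_false] <;> omega

lemma ph_energy (n : ℕ) : ∑ e ∈ dE n, (ph n e.1 - ph n (nb e)) ^ 2 ≤
    2 * (1 + 8 * hn (n + 1)) / hn (n + 1) ^ 2 := by
  have hpos : 0 < hn (n + 1) := by have := one_le_hn n; linarith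
  have h1 : ∀ e ∈ dE n, (ph n e.1 - ph n (nb e)) ^ 2 ≤
      (1 / (max 1 (nrm e.1 : ℝ)) ^ 2) / hn (n + 1) ^ 2 := by
    intro e he
    rw [mem_dE] at he
    have hn1 := nrm_nb e
    have hor : nrm e.1 ≤ n ∨ nrm (nb e) ≤ n := by
      rw [nrm_le, nrm_le]; exact he.1
    rw [ph_eq he.2.1 (by omega), ph_eq he.2.2 (by omega)]
    have h2 : (1 - hn (nrm e.1) / hn (n + 1) - (1 - hn (nrm (nb e)) / hn (n + 1))) ^ 2 =
        (hn (nrm e.1) - hn (nrm (nb e))) ^ 2 / hn (n + 1) ^ 2 := by
      field_simp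
      ring
    rw [h2]
    exact div_le_div_of_nonneg_right (hn_diff hn1) (by positivity)
  refine (Finset.sum_le_sum h1).trans ?_
  have h3 : dE n ⊆ Pool.Agent.W854.IG.box (n + 1) ×ˢ (Finset.univ : Finset Bool) := by
    intro e he
    unfold dE edges at he
    exact (Finset.mem_filter.1 (Finset.mem_filter.1 he).1).1
  refine (Finset.sum_le_sum_of_subset_of_nonneg h3 (fun _ _ _ => by positivity)).trans ?_
  rw [Finset.sum_product]
  simp only [Finset.sum_const, Finset.card_univ, Fintype.card_bool, nsmul_eq_mul]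
  rw [← Finset.mul_sum, ← Finset.sum_div, mul_div_assoc]
  push_cast
  have h4 := sum_box (n + 1)
  apply mul_le_mul_of_nonneg_left _ (by norm_num)
  exact div_le_div_of_nonneg_right h4 (by positivity)

/-- the magnetisation at the tip of the slit is small -/
theorem tip_bound (n : ℕ) (hn1 : 1 ≤ n) :
    2 * (√2 - 1) * (mg n (0, 0) ^ 2) ^ 2 ≤ 2 * (1 + 8 * hn (n + 1)) / hn (n + 1) ^ 2 := by
  have ho : ((0, 0) : Pt) ∈ dom n := by
    rw [mem_dom]
    simp
  have hH0 : Hs n (0, 0) = mg n (0, 0) ^ 2 := by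
    unfold Hs
    simp only [abs_zero]
    exact Hf_tip n
  have hG0 : Gf n (0, 0) = mg n (0, 0) ^ 2 := by
    unfold Gf
    rw [hH0]
    exact max_eq_left (sq_nonneg _)
  have hout : ∀ e ∈ dE n, ∀ u, (u = e.1 ∨ u = nb e) → Gf n u ≤ 1 := by
    intro e he u hu
    unfold Gf
    apply max_le _ zero_le_one
    by_cases hud : u ∈ dom n
    · exact Hs_le_one n hn1 hud
    · rw [mem_dE] at he
      have hor : nrm e.1 ≤ n ∨ nrm (nb e) ≤ n := by
        rw [nrm_le, nrm_le]; exact he.1
      have hn2 := nrm_nb e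
      have hus : u ∉ slit n := by
        rcases hu with rfl | rfl
        · exact he.2.1
        · exact he.2.2
      have h3 : u ∉ Pool.Agent.W854.IG.box n := fun h' => hud (Finset.mem_sdiff.2 ⟨h', hus⟩)
      have h4 : nrm u ≤ n + 1 := by
        rcases hu with rfl | rfl <;> omega
      rw [nrm_le, mem_box] at h4
      rw [mem_box] at h3
      push_cast at h4
      exact (Hs_out h3 (by omega)).le
  have key := energy (dom n) (dE n) Prod.fst nb (Gf n) (ph n)
    (fun p hp => by unfold ph; rw [if_neg hp]) (fun p => le_max_right _ _)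
    (fun e he => ⟨hout e he _ (Or.inl rfl), hout e he _ (Or.inr rfl)⟩)
    (fun p hp => lapE_max _ _ _ _ _ (sub_H n hn1 hp)) (0, 0) ho (2 * (√2 - 1)) (by
      rw [hG0, ← hH0]
      exact (tip_H n hn1).trans (lapE_le_max _ _ _ _ _ (by rw [hH0]; exact sq_nonneg _)))
  have hph : ph n (0, 0) = 1 := by
    unfold ph
    rw [if_pos ho]
    simp [nrm, hn]
  rw [hG0, hph, one_mul] at key
  exact key.trans (ph_energy n)

/-- the magnetisation at the tip of the slit tends to zero -/
theorem tip_small (ε : ℝ) (hε : 0 < ε) : ∃ N : ℕ, ∀ n, N ≤ n → mg n (0, 0) ≤ ε := by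
  have hc : 0 < 2 * (√2 - 1) := by
    have : 1 < √2 := by
      rw [show (1 : ℝ) = √1 by simp]
      exact Real.sqrt_lt_sqrt (by norm_num) (by norm_num)
    linarith
  obtain ⟨N, hN⟩ := (Filter.tendsto_atTop_atTop.1 hn_tendsto) (18 / (2 * (√2 - 1) * ε ^ 4) + 1)
  refine ⟨N + 1, fun n hn1 => ?_⟩
  have h1 := tip_bound n (by omega)
  have h2 := hN (n + 1) (by omega)
  have h3 := one_le_hn n
  have hpos : 0 < hn (n + 1) := by linarith
  have h4 : 2 * (1 + 8 * hn (n + 1)) / hn (n + 1) ^ 2 ≤ 18 / hn (n + 1) := by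
    rw [div_le_div_iff₀ (by positivity) hpos]
    nlinarith
  have h5 : 18 / hn (n + 1) < 2 * (√2 - 1) * ε ^ 4 := by
    rw [div_lt_iff₀ hpos]
    have h6 : 18 / (2 * (√2 - 1) * ε ^ 4) < hn (n + 1) := by linarith
    rw [div_lt_iff₀ (by positivity)] at h6
    linarith
  by_contra hcon
  rw [not_le] at hcon
  have h7 : ε ^ 4 ≤ mg n (0, 0) ^ 4 := pow_le_pow_left₀ hε.le hcon.le 4
  have h8 : 2 * (√2 - 1) * ε ^ 4 ≤ 2 * (√2 - 1) * (mg n (0, 0) ^ 2) ^ 2 := by
    rw [← pow_mul]
    exact mul_le_mul_of_nonneg_left h7 hc.le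
  linarith

end Pool.Agent.Y993.GM
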