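import Pool.Agent.Y993.GM.GFun

set_option autoImplicit false

/-!
# The finite-volume form of the g-function identity
-/

open Finset hiding box
open MeasureTheory Filter Topology

noncomputable section

namespace Pool.Agent.Y993.GM

open Pool.Agent.W854.IG Pool.Agent.W599.IGQ

/-- the past on the line of a planar configuration -/
def pst (σ : Pt → Bool) : ℕ → Bool := past (fun i => σ (i, 0))

/-- the Boltzmann weight in the box -/
def wb (n : ℕ) (σ : Pt → Bool) : ℝ := Real.exp (Hg (edges n) Prod.fst nb (fun _ => βc) σ)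

lemma wb_pos (n : ℕ) (σ : Pt → Bool) : 0 < wb n σ := Real.exp_pos _

lemma Zg_wb (n : ℕ) (Λ : Finset Pt) (τ : Pt → Bool) (f : (Pt → Bool) → ℝ) :
    Zg Λ τ (edges n) Prod.fst nb (fun _ => βc) f = ∑ σ ∈ cf Λ τ, f σ * wb n σ := rfl

lemma inner_eq (n : ℕ) (a : Bool) (F : (ℕ → Bool) → ℝ) (σ : Pt → Bool)
    (hσ : σ ∈ cf (Pool.Agent.W854.IG.box n) (fun _ => true)) :
    (∑ ξ ∈ cf (dom n) σ, wb n ξ * (i0 a ξ * F (pst ξ))) / ∑ ξ ∈ cf (dom n) σ, wb n ξ =
      pp n a (lift (pst σ)) * F (pst σ) := by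
  rw [mem_cf] at hσ
  have hbs : ∀ p, p ∉ dom n → σ p = bs true n σ p := by
    intro p hp
    unfold bs pin
    split_ifs with h1
    · rfl
    · exact hσ p (fun h2 => hp (Finset.mem_sdiff.2 ⟨h2, h1⟩))
  have hcf : cf (dom n) σ = cf (dom n) (bs true n σ) := cf_congr hbs
  have hpst : ∀ ξ ∈ cf (dom n) σ, pst ξ = pst σ := by
    intro ξ hξ
    rw [mem_cf] at hξ
    funext k
    show ξ (-1 - (k : ℤ), 0) = σ (-1 - (k : ℤ), 0)
    refine hξ _ fun h1 => ?_
    rw [mem_dom] at h1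
    exact h1.2 ⟨by dsimp only; omega, rfl⟩
  have e2 : pp n a (lift (pst σ)) = pp n a σ := pp_congr n a (past_lift n σ)
  have e3 : pp n a σ = (∑ ξ ∈ cf (dom n) σ, i0 a ξ * wb n ξ) / ∑ ξ ∈ cf (dom n) σ, wb n ξ := by
    unfold pp ex av
    rw [Zg_wb, Zg_wb, ← hcf]
    simp only [one_mul]
  have e4 : ∑ ξ ∈ cf (dom n) σ, wb n ξ * (i0 a ξ * F (pst ξ)) =
      (∑ ξ ∈ cf (dom n) σ, i0 a ξ * wb n ξ) * F (pst σ) := by
    rw [Finset.sum_mul]
    apply Finset.sum_congr rfl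
    intro ξ hξ
    rw [hpst ξ hξ]
    ring
  rw [e2, e3, e4, div_mul_eq_mul_div]

lemma finite_identity (n : ℕ) (a : Bool) (F : (ℕ → Bool) → ℝ) :
    avL βc (Pool.Agent.W854.IG.box n) (fun _ => true) (edges n) (fun σ => i0 a σ * F (pst σ)) =
    avL βc (Pool.Agent.W854.IG.box n) (fun _ => true) (edges n)
      (fun σ => pp n a (lift (pst σ)) * F (pst σ)) := by
  have hsub : dom n ⊆ Pool.Agent.W854.IG.box n := Finset.sdiff_subset
  have hs := star (wb n) (wb_pos n) hsub (fun _ => true) (fun σ => i0 a σ * F (pst σ))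
  have key : Zg (Pool.Agent.W854.IG.box n) (fun _ => true) (edges n) Prod.fst nb (fun _ => βc)
      (fun σ => i0 a σ * F (pst σ)) =
      Zg (Pool.Agent.W854.IG.box n) (fun _ => true) (edges n) Prod.fst nb (fun _ => βc)
      (fun σ => pp n a (lift (pst σ)) * F (pst σ)) := by
    rw [Zg_wb, Zg_wb]
    have e1 : ∑ σ ∈ cf (Pool.Agent.W854.IG.box n) (fun _ => true),
        i0 a σ * F (pst σ) * wb n σ =
        ∑ σ ∈ cf (Pool.Agent.W854.IG.box n) (fun _ => true), wb n σ * (i0 a σ * F (pst σ)) :=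
      Finset.sum_congr rfl fun σ _ => mul_comm _ _
    rw [e1, ← hs]
    refine Finset.sum_congr rfl fun σ hσ => ?_
    rw [inner_eq n a F σ hσ]
    ring
  unfold avL av
  rw [key]

end Pool.Agent.Y993.GM
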