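import Pool.Agent.Y993.GM.Energy
import Pool.Agent.W854.IG.Main

set_option autoImplicit false

/-!
# The g-function of the projection of the critical plus phase
-/

open Finset hiding box
open MeasureTheory Filter Topology

noncomputable section

namespace Pool.Agent.Y993.GM

open Pool.Agent.W854.IG Pool.Agent.W599.IGQ

local instance : DecidableEq Pt := inferInstance

/-- indicator of a plus at the origin -/
def i0 (a : Bool) (σ : Pt → Bool) : ℝ := if σ (0, 0) = a then 1 else 0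

/-- the boundary condition: `ξ` on the slit, the constant `s` elsewhere -/
def bs (s : Bool) (n : ℕ) (ξ : Pt → Bool) : Pt → Bool := pin (slit n) ξ s

/-- expectation in the slit box, given the spins on the slit -/
def ex (n : ℕ) (s : Bool) (ξ : Pt → Bool) (f : (Pt → Bool) → ℝ) : ℝ :=
  av (dom n) (bs s n ξ) (edges n) Prod.fst nb (fun _ => βc) f

lemma tip_dom (n : ℕ) : ((0, 0) : Pt) ∈ dom n := by
  rw [mem_dom]; simp

lemma mg_eq (n : ℕ) (p : Pt) : mg n p = av (dom n) (fun _ => true)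
    ((edges n).filter (fun e => e.1 ∉ slit n ∧ nb e ∉ slit n)) Prod.fst nb (fun _ => βc)
      (fun σ => sp (σ p)) := rfl

lemma dom_sub {n m : ℕ} (h : n ≤ m) : dom n ⊆ dom m := by
  intro p hp
  rw [mem_dom] at hp ⊢
  have : (n : ℤ) ≤ m := by exact_mod_cast h
  omega

/-- Cauchy property, uniform in the spins on the slit -/
lemma ex_cauchy {n m : ℕ} (h : n ≤ m) (ξ : Pt → Bool) :
    |ex m true ξ (fun σ => sp (σ (0, 0))) - ex n true ξ (fun σ => sp (σ (0, 0)))| ≤
      2 * mg n (0, 0) := by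
  have hnm : (n : ℤ) ≤ m := by exact_mod_cast h
  have hS := Pool.Agent.W337.IG.sand
  have hP := pinned
  have hJ : ∀ e ∈ edges m, 0 ≤ (fun _ : Pt × Bool => βc) e := fun _ _ => βc_nonneg
  have hf : Monotone (fun σ : Pt → Bool => sp (σ (0, 0))) := sp_comp_mono _
  have hsl : ∀ p, p ∈ slit n → p ∈ slit m := by
    intro p hp
    rw [mem_slit] at hp ⊢
    omega
  have hout : ∀ p, p ∉ dom n → p ∈ dom m → p ∉ slit n := by
    intro p _ hp hs
    rw [mem_dom] at hp
    rw [mem_slit] at hs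
    omega
  have up := (hS Pt (Pt × Bool) (edges m) Prod.fst nb (fun _ => βc) hJ (dom n) (dom m)
    (bs true n ξ) (bs true m ξ) (dom_sub h) _ hf).1
    (by
      intro p hp hp'
      unfold bs pin
      rw [if_neg (hout p hp hp')])
    (by
      intro p hp
      unfold bs pin
      by_cases hl : p ∈ slit n
      · rw [if_pos hl, if_pos (hsl p hl)]
      · rw [if_neg hl]
        exact Bool.le_true _)
  have low := (hS Pt (Pt × Bool) (edges m) Prod.fst nb (fun _ => βc) hJ (dom n) (dom m)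
    (bs false n ξ) (bs true m ξ) (dom_sub h) _ hf).2
    (by
      intro p hp hp'
      unfold bs pin
      rw [if_neg (hout p hp hp')])
    (by
      intro p hp
      unfold bs pin
      by_cases hl : p ∈ slit n
      · rw [if_pos hl, if_pos (hsl p hl)]
      · rw [if_neg hl]
        exact Bool.false_le _)
  have hedge : ∀ (s : Bool), av (dom n) (bs s n ξ) (edges m) Prod.fst nb (fun _ => βc)
      (fun σ : Pt → Bool => sp (σ (0, 0))) = ex n s ξ (fun σ => sp (σ (0, 0))) := by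
    intro s
    apply av_edges
    · exact Pool.Agent.W74.IG.EXIST.edges_mono h
    · intro e _ he'
      rw [mem_edges] at he'
      push Not at he'
      exact ⟨fun h1 => he'.1 (Finset.mem_sdiff.1 h1).1, fun h1 => he'.2 (Finset.mem_sdiff.1 h1).1⟩
  rw [hedge] at up low
  have hdis : Disjoint (dom n) (slit n) := Finset.sdiff_disjoint
  have hpn := hP Pt (Pt × Bool) (dom n) (slit n) (edges n) Prod.fst nb (fun _ => βc) ξ
    (0, 0) hdis (tip_dom n) (fun _ _ => βc_nonneg)
  rw [← mg_eq] at hpn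
  have e1 : ex n true ξ (fun σ => sp (σ (0, 0))) - ex n false ξ (fun σ => sp (σ (0, 0))) ≤
      2 * mg n (0, 0) := hpn
  have e2 : ex m true ξ (fun σ => sp (σ (0, 0))) ≤ ex n true ξ (fun σ => sp (σ (0, 0))) := up
  have e3 : ex n false ξ (fun σ => sp (σ (0, 0))) ≤ ex m true ξ (fun σ => sp (σ (0, 0))) := low
  rw [abs_le]
  constructor <;> linarith

/-- conditional probability of `a` at the origin given the spins on the slit -/
def pp (n : ℕ) (a : Bool) (ξ : Pt → Bool) : ℝ := ex n true ξ (i0 a)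

lemma i0_eq (a : Bool) (σ : Pt → Bool) : i0 a σ = 1 / 2 + (sp a / 2) * sp (σ (0, 0)) := by
  unfold i0
  cases a <;> cases σ (0, 0) <;> simp <;> norm_num

lemma pp_eq (n : ℕ) (a : Bool) (ξ : Pt → Bool) :
    pp n a ξ = 1 / 2 + (sp a / 2) * ex n true ξ (fun σ => sp (σ (0, 0))) := by
  unfold pp ex
  have : i0 a = fun σ => (fun _ => (1 / 2 : ℝ)) σ + (fun σ => (sp a / 2) * sp (σ (0, 0))) σ := by
    funext σ
    exact i0_eq a σ
  rw [this, av_add, av_const, av_const_mul]

lemma pp_cauchy {n m : ℕ} (h : n ≤ m) (a : Bool) (ξ : Pt → Bool) :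
    |pp m a ξ - pp n a ξ| ≤ mg n (0, 0) := by
  rw [pp_eq, pp_eq]
  have h1 := ex_cauchy h ξ
  have h2 : 1 / 2 + (sp a / 2) * ex m true ξ (fun σ => sp (σ (0, 0))) -
      (1 / 2 + (sp a / 2) * ex n true ξ (fun σ => sp (σ (0, 0)))) =
      sp a * ((ex m true ξ (fun σ => sp (σ (0, 0))) -
        ex n true ξ (fun σ => sp (σ (0, 0)))) / 2) := by ring
  rw [h2, abs_mul, abs_sp, one_mul, abs_div, abs_two]
  linarith

lemma pp_add (n : ℕ) (ξ : Pt → Bool) : pp n true ξ + pp n false ξ = 1 := by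
  rw [pp_eq, pp_eq, sp_true, sp_false]
  ring

lemma pp_congr (n : ℕ) (a : Bool) {ξ ξ' : Pt → Bool} (h : ∀ p ∈ slit n, ξ p = ξ' p) :
    pp n a ξ = pp n a ξ' := by
  unfold pp ex
  apply av_congr_bc
  intro p _
  unfold bs pin
  split_ifs with h1
  · exact h p h1
  · rfl

/-- finite energy -/
lemma pp_lower (n : ℕ) (a : Bool) (ξ : Pt → Bool) :
    1 / (1 + Real.exp (8 * βc)) ≤ pp n a ξ := by
  obtain ⟨Λ0, hΛ0⟩ : ∃ Λ0 : Finset Pt, Λ0 = (dom n).erase (0, 0) := ⟨_, rfl⟩
  have hnot : ((0, 0) : Pt) ∉ Λ0 := by rw [hΛ0]; exact Finset.notMem_erase _ _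
  have hins : dom n = insert (0, 0) Λ0 := by rw [hΛ0, Finset.insert_erase (tip_dom n)]
  obtain ⟨w, hw⟩ : ∃ w : Bool → ℝ, ∀ s, w s = Zg Λ0 (Function.update (bs true n ξ) (0, 0) s)
      (edges n) Prod.fst nb (fun _ => βc) (fun _ => 1) := ⟨_, fun _ => rfl⟩
  have hwpos : ∀ s, 0 < w s := fun s => by rw [hw]; exact Zg_one_pos _ _ _ _ _ _
  have hi : ∀ s, Zg Λ0 (Function.update (bs true n ξ) (0, 0) s) (edges n) Prod.fst nb
      (fun _ => βc) (i0 a) = if s = a then w s else 0 := by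
    intro s
    rw [hw]
    have : Zg Λ0 (Function.update (bs true n ξ) (0, 0) s) (edges n) Prod.fst nb
      (fun _ => βc) (i0 a) = Zg Λ0 (Function.update (bs true n ξ) (0, 0) s) (edges n) Prod.fst nb
      (fun _ => βc) (fun _ => (if s = a then (1 : ℝ) else 0) * 1) := by
      apply Zg_congr_fun
      intro σ hσ
      rw [mem_cf] at hσ
      unfold i0
      rw [hσ _ hnot, Function.update_self, mul_one]
    rw [this, Zg_const_mul]
    split_ifs <;> ring
  have h1 : pp n a ξ = w a / (w true + w false) := by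
    unfold pp ex av
    rw [hins, Zg_insert hnot, Zg_insert hnot, hi, hi, ← hw, ← hw]
    congr 1
    cases a <;> simp
  have h2 : ∀ s s' : Bool, w s' ≤ Real.exp (8 * βc) * w s := by
    intro s s'
    rw [hw, hw]
    unfold Zg
    rw [sum_cf, sum_cf, Finset.mul_sum]
    refine Finset.sum_le_sum fun z _ => ?_
    rw [one_mul, one_mul, ← Real.exp_add]
    refine Real.exp_le_exp.2 (Pool.Agent.W177.IG.energy_le βc βc_nonneg n (0, 0) _ _
      fun p hp => ?_)
    unfold Pool.Agent.W854.IG.ext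
    split_ifs with h
    · rfl
    · rw [Function.update_of_ne hp, Function.update_of_ne hp]
  rw [h1, div_le_div_iff₀ (by positivity) (by linarith [hwpos true, hwpos false])]
  have h3 := h2 a (!a)
  have h4 : w true + w false = w a + w (!a) := by cases a <;> simp [add_comm]
  rw [h4]
  nlinarith

/-! ### the g-function -/

/-- a past extended to the lattice -/
def lift (x : ℕ → Bool) : Pt → Bool := fun p => x (-1 - p.1).toNat

/-- the past of a configuration -/
def past (ω : Om) : ℕ → Bool := fun k => ω (-1 - (k : ℤ))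

lemma past_lift (n : ℕ) (σ : Pt → Bool) : ∀ p ∈ slit n,
    lift (past (fun i => σ (i, 0))) p = σ p := by
  intro p hp
  rw [mem_slit] at hp
  unfold lift past
  have h1 : (-1 - (((-1 - p.1).toNat : ℕ) : ℤ)) = p.1 := by omega
  simp only [h1]
  congr 1
  exact Prod.ext rfl hp.2.symm

lemma exists_g : ∃ g : Bool → (ℕ → Bool) → ℝ, ∀ (n : ℕ) (a : Bool) (x : ℕ → Bool),
    |g a x - pp n a (lift x)| ≤ mg n (0, 0) := by
  have hc : ∀ (a : Bool) (x : ℕ → Bool), ∃ L, Tendsto (fun n => pp n a (lift x)) atTop (𝓝 L) := by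
    intro a x
    apply cauchySeq_tendsto_of_complete
    rw [Metric.cauchySeq_iff']
    intro ε hε
    obtain ⟨N, hN⟩ := tip_small (ε / 2) (by linarith)
    refine ⟨N, fun n hn => ?_⟩
    rw [Real.dist_eq]
    exact lt_of_le_of_lt ((pp_cauchy hn a (lift x)).trans (hN N le_rfl)) (by linarith)
  choose g hg using hc
  refine ⟨g, fun n a x => ?_⟩
  have h1 : Tendsto (fun m => |pp m a (lift x) - pp n a (lift x)|) atTop
      (𝓝 |g a x - pp n a (lift x)|) := ((hg a x).sub_const _).abs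
  refine le_of_tendsto h1 ?_
  filter_upwards [eventually_ge_atTop n] with m hm
  exact pp_cauchy hm a (lift x)

lemma pp_continuous (n : ℕ) (a : Bool) : Continuous (fun x : ℕ → Bool => pp n a (lift x)) := by
  -- depends on finitely many coordinates
  let r : (ℕ → Bool) → (Fin n → Bool) := fun x i => x i
  have hr : Continuous r := continuous_pi fun i => continuous_apply _
  let F : (Fin n → Bool) → ℝ := fun s => pp n a (lift (fun k => if h : k < n then s ⟨k, h⟩ else true))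
  have hF : Continuous F := continuous_of_discreteTopology
  have : (fun x : ℕ → Bool => pp n a (lift x)) = F ∘ r := by
    funext x
    apply pp_congr
    intro p hp
    rw [mem_slit] at hp
    unfold lift
    have : (-1 - p.1).toNat < n := by omega
    simp [r, this]
  rw [this]
  exact hF.comp hr

lemma g_continuous {g : Bool → (ℕ → Bool) → ℝ}
    (hg : ∀ (n : ℕ) (a : Bool) (x : ℕ → Bool), |g a x - pp n a (lift x)| ≤ mg n (0, 0))
    (a : Bool) : Continuous (g a) := by
  have h : TendstoUniformly (fun (n : ℕ) (x : ℕ → Bool) => pp n a (lift x)) (g a) atTop := by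
    rw [Metric.tendstoUniformly_iff]
    intro ε hε
    obtain ⟨N, hN⟩ := tip_small (ε / 2) (by linarith)
    filter_upwards [eventually_ge_atTop N] with n hn x
    rw [Real.dist_eq]
    exact lt_of_le_of_lt ((hg n a x).trans (hN n hn)) (by linarith)
  exact h.continuous (Frequently.of_forall fun n => pp_continuous n a)

lemma g_lower {g : Bool → (ℕ → Bool) → ℝ}
    (hg : ∀ (n : ℕ) (a : Bool) (x : ℕ → Bool), |g a x - pp n a (lift x)| ≤ mg n (0, 0))
    (a : Bool) (x : ℕ → Bool) : 1 / (1 + Real.exp (8 * βc)) ≤ g a x := by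
  apply le_of_forall_pos_le_add
  intro ε hε
  obtain ⟨N, hN⟩ := tip_small ε hε
  have h1 := hg N a x
  have h2 := hN N le_rfl
  have h3 := pp_lower N a (lift x)
  rw [abs_le] at h1
  linarith [h1.1]

lemma g_add {g : Bool → (ℕ → Bool) → ℝ}
    (hg : ∀ (n : ℕ) (a : Bool) (x : ℕ → Bool), |g a x - pp n a (lift x)| ≤ mg n (0, 0))
    (x : ℕ → Bool) : g true x + g false x = 1 := by
  have key : ∀ ε : ℝ, 0 < ε → |g true x + g false x - 1| ≤ ε := by
    intro ε hε
    obtain ⟨N, hN⟩ := tip_small (ε / 2) (by linarith)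
    have h1 := hg N true x
    have h1' := hg N false x
    have h2 := hN N le_rfl
    have h3 := pp_add N (lift x)
    rw [abs_le] at h1 h1' ⊢
    constructor <;> linarith [h1.1, h1.2, h1'.1, h1'.2]
  have h0 : |g true x + g false x - 1| ≤ 0 :=
    le_of_forall_pos_le_add (fun ε hε => by rw [zero_add]; exact key ε hε)
  have := abs_eq_zero.1 (le_antisymm h0 (abs_nonneg _))
  linarith

/-! ### the finite-volume identity -/

lemma mem_cf_symm' {Λ : Finset Pt} {ξ ξ' : Pt → Bool} (h : ξ' ∈ cf Λ ξ) : cf Λ ξ = cf Λ ξ' :=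
  cf_congr fun p hp => by rw [mem_cf] at h; exact (h p hp).symm

lemma star (w : (Pt → Bool) → ℝ) (hw : ∀ ξ, 0 < w ξ) {Λ Δ : Finset Pt} (h : Λ ⊆ Δ)
    (η : Pt → Bool) (f : (Pt → Bool) → ℝ) :
    ∑ ξ ∈ cf Δ η, w ξ * ((∑ ξ' ∈ cf Λ ξ, w ξ' * f ξ') / ∑ ξ' ∈ cf Λ ξ, w ξ') =
      ∑ ξ ∈ cf Δ η, w ξ * f ξ := by
  have h1 : ∑ ξ ∈ cf Δ η, w ξ * ((∑ ξ' ∈ cf Λ ξ, w ξ' * f ξ') / ∑ ξ' ∈ cf Λ ξ, w ξ') =
      ∑ ξ ∈ cf Δ η, ∑ ξ' ∈ cf Λ ξ, w ξ * ((w ξ' * f ξ') / ∑ ρ ∈ cf Λ ξ, w ρ) := by
    apply Finset.sum_congr rfl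
    intro ξ _
    rw [Finset.sum_div, Finset.mul_sum]
  rw [h1]
  rw [Finset.sum_comm' (s' := fun ξ' => cf Λ ξ') (t' := cf Δ η)]
  · apply Finset.sum_congr rfl
    intro ξ' _
    have hN : (∑ ρ ∈ cf Λ ξ', w ρ) ≠ 0 :=
      (Finset.sum_pos (fun ρ _ => hw ρ) (cf_nonempty Λ ξ')).ne'
    have h2 : ∑ ξ ∈ cf Λ ξ', w ξ * ((w ξ' * f ξ') / ∑ ρ ∈ cf Λ ξ, w ρ) =
        ∑ ξ ∈ cf Λ ξ', w ξ * ((w ξ' * f ξ') / ∑ ρ ∈ cf Λ ξ', w ρ) := by
      apply Finset.sum_congr rfl
      intro ξ hξ
      rw [← mem_cf_symm' hξ]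
    rw [h2, ← Finset.sum_mul]
    field_simp
  · intro ξ ξ'
    rw [mem_cf, mem_cf, mem_cf, mem_cf]
    constructor
    · rintro ⟨a1, a2⟩
      refine ⟨fun p hp => (a2 p hp).symm, fun p hp => ?_⟩
      rw [a2 p (fun hh => hp (h hh)), a1 p hp]
    · rintro ⟨a1, a2⟩
      refine ⟨fun p hp => ?_, fun p hp => (a1 p hp).symm⟩
      rw [a1 p (fun hh => hp (h hh)), a2 p hp]

end Pool.Agent.Y993.GM
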