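import Pool.Agent.Y993.GM.GFin

set_option autoImplicit false

/-!
# The projection of the critical plus phase: conditional probabilities given the past
-/

open MeasureTheory ProbabilityTheory Filter Topology

noncomputable section

namespace Pool.Agent.Y993.GM

open Pool.Agent.W854.IG Pool.Agent.W599.IGQ

lemma continuous_pst : Continuous pst := continuous_pi fun _ => continuous_apply _

lemma continuous_past : Continuous past := continuous_pi fun _ => continuous_apply _

lemma continuous_i0 (a : Bool) : Continuous (i0 a) :=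
  (continuous_of_discreteTopology (f := fun b : Bool => if b = a then (1 : ℝ) else 0)).comp
    (continuous_apply ((0, 0) : Pt))

/-- the limit of the finite-volume identity -/
lemma limit_identity {g : Bool → (ℕ → Bool) → ℝ}
    (hg : ∀ (n : ℕ) (a : Bool) (x : ℕ → Bool), |g a x - pp n a (lift x)| ≤ mg n (0, 0))
    {μ : Measure (Pt → Bool)} (hμ : IsPlusPhase βc μ) (a : Bool) (F : C(ℕ → Bool, ℝ)) :
    ∫ σ, i0 a σ * F (pst σ) ∂μ = ∫ σ, g a (pst σ) * F (pst σ) ∂μ := by
  obtain ⟨hprob, hconv⟩ := hμ
  have c1 : Continuous fun σ => i0 a σ * F (pst σ) :=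
    (continuous_i0 a).mul (F.continuous.comp continuous_pst)
  have c2 : Continuous fun σ => g a (pst σ) * F (pst σ) :=
    ((g_continuous hg a).comp continuous_pst).mul (F.continuous.comp continuous_pst)
  have l1 := hconv ⟨_, c1⟩
  have l2 := hconv ⟨_, c2⟩
  simp only [ContinuousMap.coe_mk] at l1 l2
  have l3 := l1.sub l2
  have l4 : Tendsto (fun n => ∫ σ, i0 a σ * F (pst σ) ∂(plusMeasure βc n) -
      ∫ σ, g a (pst σ) * F (pst σ) ∂(plusMeasure βc n)) atTop (𝓝 0) := by
    rw [Metric.tendsto_atTop]
    intro ε hε
    have hF : 0 < ‖F‖ + 1 := by positivity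
    obtain ⟨N, hN⟩ := tip_small (ε / (2 * (‖F‖ + 1))) (by positivity)
    refine ⟨N, fun n hn => ?_⟩
    have hpr : IsProbabilityMeasure (plusMeasure βc n) := plusMeasure_prob βc n
    have e1 : ∫ σ, i0 a σ * F (pst σ) ∂(plusMeasure βc n) =
        ∫ σ, pp n a (lift (pst σ)) * F (pst σ) ∂(plusMeasure βc n) := by
      rw [plusMeasure_integral, plusMeasure_integral]
      exact finite_identity n a F
    have c3 : Continuous fun σ => pp n a (lift (pst σ)) * F (pst σ) :=
      ((pp_continuous n a).comp continuous_pst).mul (F.continuous.comp continuous_pst)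
    have i1 := Pool.Agent.W74.IG.EXIST.integrable_cont (plusMeasure βc n) ⟨_, c3⟩
    have i2 := Pool.Agent.W74.IG.EXIST.integrable_cont (plusMeasure βc n) ⟨_, c2⟩
    simp only [ContinuousMap.coe_mk] at i1 i2
    rw [Real.dist_eq, sub_zero, e1, ← integral_sub i1 i2]
    have hb : ∀ σ, ‖pp n a (lift (pst σ)) * F (pst σ) - g a (pst σ) * F (pst σ)‖ ≤ ε / 2 := by
      intro σ
      rw [← sub_mul, norm_mul, Real.norm_eq_abs, abs_sub_comm]
      have h1 := (hg n a (pst σ)).trans (hN n hn)
      have h2 := F.norm_coe_le_norm (pst σ)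
      calc |g a (pst σ) - pp n a (lift (pst σ))| * ‖F (pst σ)‖
          ≤ ε / (2 * (‖F‖ + 1)) * (‖F‖ + 1) :=
            mul_le_mul h1 (h2.trans (by linarith)) (norm_nonneg _) (by positivity)
        _ = ε / 2 := by field_simp
    have h3 := norm_integral_le_of_norm_le_const (μ := plusMeasure βc n) (Eventually.of_forall hb)
    simp only [probReal_univ, mul_one] at h3
    rw [Real.norm_eq_abs] at h3
    linarith
  have := tendsto_nhds_unique l3 l4
  linarith

/-- the law of the past on the event `ω 0 = a` has density `g a` -/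
lemma law_eq {g : Bool → (ℕ → Bool) → ℝ}
    (hg : ∀ (n : ℕ) (a : Bool) (x : ℕ → Bool), |g a x - pp n a (lift x)| ≤ mg n (0, 0))
    {μ : Measure (Pt → Bool)} (hμ : IsPlusPhase βc μ) (a : Bool) :
    ((μ.map toLine).restrict {ω | ω 0 = a}).map past =
      ((μ.map toLine).map past).withDensity (fun x => ENNReal.ofReal (g a x)) := by
  have hprob := hμ.1
  have hgc := g_continuous hg a
  have hgp : ∀ x, 0 ≤ g a x := fun x => le_trans (by positivity) (g_lower hg a x)
  have hmt : Measurable toLine := continuous_toLine.measurable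
  have hmp : Measurable past := continuous_past.measurable
  have hset : MeasurableSet {ω : Om | ω 0 = a} :=
    measurableSet_eq_fun (measurable_pi_apply (0 : ℤ)) measurable_const
  have hν : IsProbabilityMeasure (μ.map toLine) := Measure.isProbabilityMeasure_map hmt.aemeasurable
  have hν2 : IsProbabilityMeasure ((μ.map toLine).map past) :=
    Measure.isProbabilityMeasure_map hmp.aemeasurable
  obtain ⟨G, hG⟩ : ∃ G : C(ℕ → Bool, ℝ), ∀ x, G x = g a x := ⟨⟨_, hgc⟩, fun _ => rfl⟩
  have hfin : IsFiniteMeasure
      (((μ.map toLine).map past).withDensity (fun x => ENNReal.ofReal (g a x))) := by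
    apply isFiniteMeasure_withDensity_ofReal
    refine (HasFiniteIntegral.of_bounded (C := ‖G‖) (Eventually.of_forall fun x => ?_))
    rw [← hG]
    exact G.norm_coe_le_norm x
  apply ext_of_forall_integral_eq_of_IsFiniteMeasure
  intro F0
  obtain ⟨F, hF⟩ : ∃ F : C(ℕ → Bool, ℝ), ∀ x, F x = F0 x := ⟨F0.toContinuousMap, fun _ => rfl⟩
  simp only [← hF]
  have key := limit_identity hg hμ a F
  have s1 : ∫ x, F x ∂(((μ.map toLine).restrict {ω | ω 0 = a}).map past) =
      ∫ σ, i0 a σ * F (pst σ) ∂μ := by
    rw [integral_map hmp.aemeasurable F.continuous.aestronglyMeasurable,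
      ← integral_indicator hset]
    rw [integral_map hmt.aemeasurable]
    · apply integral_congr_ae
      refine Eventually.of_forall fun σ => ?_
      show Set.indicator {ω : Om | ω 0 = a} (fun ω => F (past ω)) (toLine σ) = i0 a σ * F (pst σ)
      by_cases h : σ (0, 0) = a
      · have h' : toLine σ ∈ {ω : Om | ω 0 = a} := h
        rw [Set.indicator_of_mem h']
        unfold i0
        rw [if_pos h, one_mul]
        rfl
      · have h' : toLine σ ∉ {ω : Om | ω 0 = a} := h
        rw [Set.indicator_of_notMem h']
        unfold i0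
        rw [if_neg h, zero_mul]
    · exact ((F.continuous.comp continuous_past).measurable.indicator hset).aestronglyMeasurable
  have s2 : ∫ x, F x ∂(((μ.map toLine).map past).withDensity (fun x => ENNReal.ofReal (g a x))) =
      ∫ σ, g a (pst σ) * F (pst σ) ∂μ := by
    have hmeas : Measurable fun x => (g a x).toNNReal := hgc.measurable.real_toNNReal
    have : (fun x => ENNReal.ofReal (g a x)) = fun x => (((g a x).toNNReal : NNReal) : ENNReal) :=
      rfl
    rw [this, integral_withDensity_eq_integral_smul hmeas]
    have e1 : ∀ x, (g a x).toNNReal • F x = g a x * F x := by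
      intro x
      rw [NNReal.smul_def, Real.coe_toNNReal _ (hgp x), smul_eq_mul]
    simp only [e1]
    have hc : Continuous fun x => g a x * F x := hgc.mul F.continuous
    rw [integral_map hmp.aemeasurable hc.aestronglyMeasurable, integral_map hmt.aemeasurable]
    · rfl
    · exact (hc.comp continuous_past).aestronglyMeasurable
  rw [s1, s2, key]

/-- the conditional probability given the past -/
theorem cond_eq {g : Bool → (ℕ → Bool) → ℝ}
    (hg : ∀ (n : ℕ) (a : Bool) (x : ℕ → Bool), |g a x - pp n a (lift x)| ≤ mg n (0, 0))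
    {μ : Measure (Pt → Bool)} (hμ : IsPlusPhase βc μ) (a : Bool) :
    (μ.map toLine)⟦{ω | ω 0 = a} | MeasurableSpace.comap past inferInstance⟧ =ᵐ[μ.map toLine]
      fun ω => g a (past ω) := by
  have hprob := hμ.1
  have hgc := g_continuous hg a
  have hgp : ∀ x, 0 ≤ g a x := fun x => le_trans (by positivity) (g_lower hg a x)
  have hmt : Measurable toLine := continuous_toLine.measurable
  have hmp : Measurable past := continuous_past.measurable
  have hm : MeasurableSpace.comap past inferInstance ≤ (inferInstance : MeasurableSpace Om) :=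
    hmp.comap_le
  have hset : MeasurableSet {ω : Om | ω 0 = a} :=
    measurableSet_eq_fun (measurable_pi_apply (0 : ℤ)) measurable_const
  have hν : IsProbabilityMeasure (μ.map toLine) := Measure.isProbabilityMeasure_map hmt.aemeasurable
  obtain ⟨G, hG⟩ : ∃ G : C(ℕ → Bool, ℝ), ∀ x, G x = g a x := ⟨⟨_, hgc⟩, fun _ => rfl⟩
  have hlaw := law_eq hg hμ a
  symm
  refine ae_eq_condExp_of_forall_setIntegral_eq hm ?_ ?_ ?_ ?_
  · exact (integrable_const (1 : ℝ)).indicator hset
  · intro s _ _
    apply Integrable.integrableOn
    refine Integrable.of_bound ((hgc.comp continuous_past).aestronglyMeasurable) ‖G‖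
      (Eventually.of_forall fun ω => ?_)
    show ‖g a (past ω)‖ ≤ ‖G‖
    rw [← hG]
    exact G.norm_coe_le_norm _
  · intro s hs _
    obtain ⟨A, hA, rfl⟩ := hs
    have e1 : ∫ ω in past ⁻¹' A, g a (past ω) ∂(μ.map toLine) =
        ∫ x in A, g a x ∂((μ.map toLine).map past) :=
      (setIntegral_map hA hgc.aestronglyMeasurable hmp.aemeasurable).symm
    have e2 : ∫ ω in past ⁻¹' A, Set.indicator {ω : Om | ω 0 = a} (fun _ => (1 : ℝ)) ω
        ∂(μ.map toLine) = ((μ.map toLine).restrict {ω | ω 0 = a}).real (past ⁻¹' A) := by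
      rw [integral_indicator_const _ hset, smul_eq_mul, mul_one,
        measureReal_restrict_apply hset, measureReal_restrict_apply (hmp hA), Set.inter_comm]
    have e3 : ((μ.map toLine).restrict {ω | ω 0 = a}).real (past ⁻¹' A) =
        (((μ.map toLine).restrict {ω | ω 0 = a}).map past).real A := by
      rw [map_measureReal_apply hmp hA]
    have e4 : (((μ.map toLine).map past).withDensity (fun x => ENNReal.ofReal (g a x))).real A =
        ∫ x in A, g a x ∂((μ.map toLine).map past) := by
      rw [measureReal_def, withDensity_apply _ hA, ← integral_toReal]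
      · apply integral_congr_ae
        refine Eventually.of_forall fun x => ?_
        show (ENNReal.ofReal (g a x)).toReal = g a x
        rw [ENNReal.toReal_ofReal (hgp x)]
      · exact (hgc.measurable.ennreal_ofReal).aemeasurable
      · exact Eventually.of_forall fun x => ENNReal.ofReal_lt_top
    rw [e1, e2, e3, hlaw, e4]
  · refine StronglyMeasurable.aestronglyMeasurable ?_
    have h1 : @Measurable Om (ℕ → Bool) (MeasurableSpace.comap past inferInstance) _ past :=
      comap_measurable past
    exact (hgc.measurable.comp h1).stronglyMeasurable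

end Pool.Agent.Y993.GM
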