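import Pool.Agent.Y993.GM.Axis

set_option autoImplicit false

/-!
# The slit box: the potential of the squares of the correlators and its subharmonicity
-/

open Finset hiding box

noncomputable section

namespace Pool.Agent.Y993.GM

open Pool.Agent.W854.IG Pool.Agent.W599.IGQ

/-- vertical increment, seen from the face on the right -/
def vL (n : ℕ) (x j : ℤ) : ℝ := q n x j (x, j + 1) ^ 2 - q n x j (x, j) ^ 2

/-- vertical increment, seen from the face on the left of the vertical edge at `x + 1` -/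
def vR (n : ℕ) (x j : ℤ) : ℝ := q n x j (x + 1, j + 1) ^ 2 - q n x j (x + 1, j) ^ 2

/-- the potential at depth `k` below the top boundary -/
def Hd (n : ℕ) (x : ℤ) : ℕ → ℝ
  | 0 => 1
  | k + 1 => Hd n x k - vL n x (n - k)

/-- the potential in the closed upper half plane -/
def Hf (n : ℕ) (x y : ℤ) : ℝ := Hd n x ((n : ℤ) + 1 - y).toNat

lemma s2 : √2 ^ 2 = 2 := Real.sq_sqrt (by norm_num)

lemma Hf_top (n : ℕ) (x : ℤ) : Hf n x (n + 1) = 1 := by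
  unfold Hf
  simp [Hd]

lemma Hf_rec (n : ℕ) (x : ℤ) {y : ℤ} (hy : y ≤ n) : Hf n x y = Hf n x (y + 1) - vL n x y := by
  obtain ⟨k, hk⟩ : ∃ k : ℕ, (n : ℤ) - y = k := ⟨((n : ℤ) - y).toNat, by omega⟩
  have h1 : ((n : ℤ) + 1 - y).toNat = k + 1 := by omega
  have h2 : ((n : ℤ) + 1 - (y + 1)).toNat = k := by omega
  unfold Hf
  rw [h1, h2]
  show Hd n x k - vL n x (n - k) = _
  rw [show (n : ℤ) - k = y by omega]

lemma out_of {n : ℕ} {p : Pt} (h : ¬ ((-(n : ℤ) ≤ p.1 ∧ p.1 ≤ n) ∧ (-(n : ℤ) ≤ p.2 ∧ p.2 ≤ n))) :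
    p ∉ dom n := fun h' => h (mem_dom.1 h').1

lemma vL_out (n : ℕ) {x j : ℤ} (hx : x = -(n : ℤ) - 1 ∨ x = n + 1) : vL n x j = 0 := by
  unfold vL q
  rw [qJ_out n (sgs x j) (p := (x, j + 1)) (p' := (x, j)) (out_of (by simp only; omega))
    (out_of (by simp only; omega)), sub_self]

lemma vR_out (n : ℕ) {j : ℤ} : vR n n j = 0 := by
  unfold vR q
  rw [qJ_out n (sgs n j) (p := ((n : ℤ) + 1, j + 1)) (p' := ((n : ℤ) + 1, j))
    (out_of (by simp only; omega)) (out_of (by simp only; omega)), sub_self]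

lemma vL_eq (n : ℕ) {x j : ℤ} (h1 : -(n : ℤ) - 1 ≤ x) (h2 : x ≤ n) (h3 : 1 ≤ j) (h4 : j ≤ n) :
    vL n (x + 1) j = vR n x j := by
  rcases eq_or_lt_of_le h2 with h | h
  · subst h
    rw [vR_out, vL_out n (Or.inr rfl)]
  · obtain ⟨r1, r2⟩ := rel_v n (a := x) (b := j) (by omega) (by omega) h3 h4
    unfold vL vR
    rw [r1, r2]
    have := s2
    ring_nf
    rw [this]
    ring

lemma vL_eq0 (n : ℕ) {x : ℤ} (h1 : -1 ≤ x) (h2 : x ≤ n) : vL n (x + 1) 0 = vR n x 0 := by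
  rcases eq_or_lt_of_le h2 with h | h
  · subst h
    rw [vR_out, vL_out n (Or.inr rfl)]
  · obtain ⟨r1, r2⟩ := rel_v0 n (a := x) (by omega) (by omega)
    unfold vL vR
    rw [zero_add, r1, r2]
    have := s2
    ring_nf
    rw [this]
    ring

/-- both faces of a horizontal edge give the same increment -/
lemma h_eq (n : ℕ) {x y : ℤ} (h1 : -(n : ℤ) - 1 ≤ x) (h2 : x ≤ n) (h3 : 1 ≤ y) (h4 : y ≤ n) :
    q n x y (x + 1, y) ^ 2 - q n x y (x, y) ^ 2 =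
      q n x (y - 1) (x + 1, y) ^ 2 - q n x (y - 1) (x, y) ^ 2 := by
  obtain ⟨r1, r2⟩ := rel_h n (a := x) (b := y - 1) h1 h2 (by omega) (by omega)
  rw [sub_add_cancel] at r1 r2
  rw [r1, r2]
  have := s2
  ring_nf
  rw [this]
  ring

lemma hor (n : ℕ) : ∀ k : ℕ, k ≤ n → ∀ x : ℤ, -(n : ℤ) - 1 ≤ x → x ≤ n →
    Hf n (x + 1) (n + 1 - k) - Hf n x (n + 1 - k) =
      q n x (n - k) (x + 1, n + 1 - k) ^ 2 - q n x (n - k) (x, n + 1 - k) ^ 2 := by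
  intro k
  induction k with
  | zero =>
    intro _ x _ _
    simp only [Nat.cast_zero, sub_zero]
    rw [Hf_top, Hf_top]
    unfold q
    rw [qJ_out n (sgs x n) (p := (x + 1, (n : ℤ) + 1)) (p' := (x, (n : ℤ) + 1))
      (out_of (by simp only; omega)) (out_of (by simp only; omega))]
    ring
  | succ k ih =>
    intro hk x h1 h2
    obtain ⟨y, hy⟩ : ∃ y : ℤ, y = n - k := ⟨_, rfl⟩
    have e1 : (n : ℤ) + 1 - ((k + 1 : ℕ) : ℤ) = y := by push_cast; omega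
    have e2 : (n : ℤ) - ((k + 1 : ℕ) : ℤ) = y - 1 := by push_cast; omega
    have e3 : (n : ℤ) + 1 - (k : ℤ) = y + 1 := by omega
    have ih1 := ih (by omega) x h1 h2
    rw [e3, ← hy] at ih1
    rw [e1, e2]
    rw [Hf_rec n (x + 1) (y := y) (by omega), Hf_rec n x (y := y) (by omega),
      vL_eq n h1 h2 (by omega) (by omega), ← h_eq n h1 h2 (by omega) (by omega)]
    unfold vR vL
    linarith

/-- horizontal increments, seen from the face below -/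
lemma horB (n : ℕ) {x y : ℤ} (h1 : -(n : ℤ) - 1 ≤ x) (h2 : x ≤ n) (h3 : 1 ≤ y) (h4 : y ≤ n + 1) :
    Hf n (x + 1) y - Hf n x y = q n x (y - 1) (x + 1, y) ^ 2 - q n x (y - 1) (x, y) ^ 2 := by
  obtain ⟨k, hk⟩ : ∃ k : ℕ, (n : ℤ) + 1 - y = k := ⟨((n : ℤ) + 1 - y).toNat, by omega⟩
  have h := hor n k (by omega) x h1 h2
  rw [show (n : ℤ) + 1 - k = y by omega, show (n : ℤ) - k = y - 1 by omega] at h
  exact h

/-- horizontal increments, seen from the face above -/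
lemma horA (n : ℕ) {x y : ℤ} (h1 : -(n : ℤ) - 1 ≤ x) (h2 : x ≤ n) (h3 : 1 ≤ y) (h4 : y ≤ n) :
    Hf n (x + 1) y - Hf n x y = q n x y (x + 1, y) ^ 2 - q n x y (x, y) ^ 2 := by
  rw [h_eq n h1 h2 h3 h4]
  exact horB n h1 h2 h3 (by omega)

/-- horizontal increments on the axis -/
lemma hor0 (n : ℕ) {x : ℤ} (h1 : 0 ≤ x) (h2 : x ≤ n) :
    Hf n (x + 1) 0 - Hf n x 0 = q n x 0 (x + 1, 0) ^ 2 - q n x 0 (x, 0) ^ 2 := by
  have h := horB n (x := x) (y := 1) (by omega) h2 le_rfl (by omega)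
  rw [Hf_rec n (x + 1) (y := 0) (by omega), Hf_rec n x (y := 0) (by omega),
    vL_eq0 n (by omega) h2]
  unfold vR vL
  simp only [zero_add, sub_self] at h ⊢
  linarith

lemma Hf_left (n : ℕ) {y : ℤ} (hy : y ≤ n + 1) {x : ℤ} (hx : x = -(n : ℤ) - 1 ∨ x = n + 1) :
    Hf n x y = 1 := by
  obtain ⟨k, hk⟩ : ∃ k : ℕ, (n : ℤ) + 1 - y = k := ⟨((n : ℤ) + 1 - y).toNat, by omega⟩
  have key : ∀ k : ℕ, Hf n x (n + 1 - k) = 1 := by
    intro k
    induction k with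
    | zero => simp only [Nat.cast_zero, sub_zero]; exact Hf_top n x
    | succ k ih =>
      rw [Hf_rec n x (by push_cast; omega), vL_out n hx,
        show (n : ℤ) + 1 - ((k + 1 : ℕ) : ℤ) + 1 = n + 1 - k by push_cast; ring, ih, sub_zero]
  have := key k
  rwa [show (n : ℤ) + 1 - k = y by omega] at this

/-- the values in the first row above the slit -/
lemma Hf_slit (n : ℕ) {x : ℤ} (h1 : -(n : ℤ) - 1 ≤ x) (h2 : x ≤ 0) :
    Hf n x 1 = mg n (x, 1) ^ 2 := by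
  obtain ⟨k, hk⟩ : ∃ k : ℕ, x = -(n : ℤ) - 1 + k := ⟨(x + n + 1).toNat, by omega⟩
  have key : ∀ k : ℕ, -(n : ℤ) - 1 + k ≤ 0 →
      Hf n (-(n : ℤ) - 1 + k) 1 = mg n (-(n : ℤ) - 1 + k, 1) ^ 2 := by
    intro k
    induction k with
    | zero =>
      intro _
      simp only [Nat.cast_zero, add_zero]
      rw [Hf_left n (by omega) (Or.inl rfl), mg_out n (out_of (by simp only; omega))]
      norm_num
    | succ k ih =>
      intro hk
      push_cast at hk ⊢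
      have ih1 := ih (by omega)
      have h := horB n (x := -(n : ℤ) - 1 + k) (y := 1) (by omega) (by omega) le_rfl (by omega)
      rw [sub_self, q_neg n (by omega), q_neg n (by omega), ih1] at h
      rw [show -(n : ℤ) - 1 + ((k : ℤ) + 1) = -(n : ℤ) - 1 + k + 1 by ring]
      linarith
  rw [hk]
  exact key k (by omega)

/-- the value at the tip -/
lemma Hf_tip (n : ℕ) : Hf n 0 0 = mg n (0, 0) ^ 2 := by
  have h1 := Hf_slit n (x := 0) (by omega) le_rfl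
  rw [Hf_rec n 0 (by omega), zero_add, h1]
  have h2 := vL_eq0 n (x := -1) le_rfl (by omega)
  rw [show (-1 : ℤ) + 1 = 0 by norm_num] at h2
  rw [h2]
  unfold vR
  rw [show (-1 : ℤ) + 1 = 0 by norm_num, zero_add, q_neg n (by norm_num), q_neg n (by norm_num)]
  ring

/-! ### subharmonicity -/

/-- four faces around a vertex -/
lemma four (f1 f2 f3 f4 : ℝ) : 0 ≤ 2 * (f1 ^ 2 + f2 ^ 2 + f3 ^ 2 + f4 ^ 2) -
    2 * √2 * (f1 * f2 + f2 * f3 + f3 * f4 - f4 * f1) := by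
  have h : 2 * (f1 ^ 2 + f2 ^ 2 + f3 ^ 2 + f4 ^ 2) -
    2 * √2 * (f1 * f2 + f2 * f3 + f3 * f4 - f4 * f1) =
    (√2 * f2 - f1 - f3) ^ 2 + (√2 * f4 - f3 + f1) ^ 2 + (2 - √2 ^ 2) * (f2 ^ 2 + f4 ^ 2) := by ring
  rw [h, s2]
  nlinarith [sq_nonneg (√2 * f2 - f1 - f3), sq_nonneg (√2 * f4 - f3 + f1)]

lemma lap_bulk (n : ℕ) {x y : ℤ} (h1 : -(n : ℤ) ≤ x) (h2 : x ≤ n) (h3 : 2 ≤ y) (h4 : y ≤ n) :
    0 ≤ (Hf n (x + 1) y - Hf n x y) + (Hf n (x - 1) y - Hf n x y) +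
      (Hf n x (y + 1) - Hf n x y) + (Hf n x (y - 1) - Hf n x y) := by
  -- increments
  have iE := horB n (x := x) (y := y) (by omega) h2 (by omega) (by omega)
  have iW := horB n (x := x - 1) (y := y) (by omega) (by omega) (by omega) (by omega)
  have iN := Hf_rec n x (y := y) h4
  have iS := Hf_rec n x (y := y - 1) (by omega)
  have vN := vL_eq n (x := x - 1) (j := y) (by omega) (by omega) (by omega) h4
  have vS := vL_eq n (x := x - 1) (j := y - 1) (by omega) (by omega) (by omega) (by omega)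
  obtain ⟨rE1, rE2⟩ := rel_h n (a := x) (b := y - 1) (by omega) h2 (by omega) (by omega)
  obtain ⟨rW1, rW2⟩ := rel_h n (a := x - 1) (b := y - 1) (by omega) (by omega) (by omega) (by omega)
  obtain ⟨rN1, rN2⟩ := rel_v n (a := x - 1) (b := y) (by omega) (by omega) (by omega) h4
  obtain ⟨rS1, rS2⟩ := rel_v n (a := x - 1) (b := y - 1) (by omega) (by omega) (by omega) (by omega)
  unfold vL vR at *
  simp only [sub_add_cancel] at *
  -- the four corners at `(x,y)`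
  obtain ⟨NE, hNE⟩ : ∃ t, t = q n x y (x, y) := ⟨_, rfl⟩
  obtain ⟨NW, hNW⟩ : ∃ t, t = q n (x - 1) y (x, y) := ⟨_, rfl⟩
  obtain ⟨SW, hSW⟩ : ∃ t, t = q n (x - 1) (y - 1) (x, y) := ⟨_, rfl⟩
  obtain ⟨SE, hSE⟩ : ∃ t, t = q n x (y - 1) (x, y) := ⟨_, rfl⟩
  rw [← hNE, ← hSE] at rE1
  rw [← hNW, ← hSW] at rW2
  rw [← hNE, ← hNW] at rN1
  rw [← hSE, ← hSW] at rS2
  have qE : q n x (y - 1) (x + 1, y) = √2 * SE - NE := by linarith
  have qW : q n (x - 1) (y - 1) (x - 1, y) = √2 * SW - NW := by linarith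
  have qN : q n (x - 1) y (x, y + 1) = √2 * NW + NE := by linarith
  have qS : q n (x - 1) (y - 1) (x, y - 1) = √2 * SW - SE := by linarith
  rw [qE, ← hSE] at iE
  rw [qW, ← hSW] at iW
  rw [vN, qN, ← hNW] at iN
  rw [vS, qS, ← hSW] at iS
  have key := four SE SW NW (-NE)
  have hs := s2
  have k1 : (√2 * SE - NE) ^ 2 - SE ^ 2 = SE ^ 2 - 2 * √2 * SE * NE + NE ^ 2 := by
    have : (√2 * SE - NE) ^ 2 - SE ^ 2 = √2 ^ 2 * SE ^ 2 - 2 * √2 * SE * NE + NE ^ 2 - SE ^ 2 := by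
      ring
    rw [this, hs]; ring
  have k2 : (√2 * SW - NW) ^ 2 - SW ^ 2 = SW ^ 2 - 2 * √2 * SW * NW + NW ^ 2 := by
    have : (√2 * SW - NW) ^ 2 - SW ^ 2 = √2 ^ 2 * SW ^ 2 - 2 * √2 * SW * NW + NW ^ 2 - SW ^ 2 := by
      ring
    rw [this, hs]; ring
  have k3 : (√2 * NW + NE) ^ 2 - NW ^ 2 = NW ^ 2 + 2 * √2 * NW * NE + NE ^ 2 := by
    have : (√2 * NW + NE) ^ 2 - NW ^ 2 = √2 ^ 2 * NW ^ 2 + 2 * √2 * NW * NE + NE ^ 2 - NW ^ 2 := by
      ring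
    rw [this, hs]; ring
  have k4 : (√2 * SW - SE) ^ 2 - SW ^ 2 = SW ^ 2 - 2 * √2 * SW * SE + SE ^ 2 := by
    have : (√2 * SW - SE) ^ 2 - SW ^ 2 = √2 ^ 2 * SW ^ 2 - 2 * √2 * SW * SE + SE ^ 2 - SW ^ 2 := by
      ring
    rw [this, hs]; ring
  rw [k1] at iE
  have iW' : Hf n (x - 1) y - Hf n x y = SW ^ 2 - 2 * √2 * SW * NW + NW ^ 2 := by linarith
  have iN' : Hf n x (y + 1) - Hf n x y = NW ^ 2 + 2 * √2 * NW * NE + NE ^ 2 := by linarith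
  have iS' : Hf n x (y - 1) - Hf n x y = SW ^ 2 - 2 * √2 * SW * SE + SE ^ 2 := by linarith
  rw [iE, iW', iN', iS']
  linarith

lemma lap_row (n : ℕ) {x : ℤ} (h1 : 0 ≤ x) (h2 : x ≤ n) (hn : 1 ≤ n) :
    0 ≤ (Hf n (x + 1) 1 - Hf n x 1) + (Hf n (x - 1) 1 - Hf n x 1) +
      (Hf n x 2 - Hf n x 1) + (Hf n x 0 - Hf n x 1) := by
  have hn' : (1 : ℤ) ≤ n := by exact_mod_cast hn
  have iE := horB n (x := x) (y := 1) (by omega) h2 (by omega) (by omega)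
  have iW := horB n (x := x - 1) (y := 1) (by omega) (by omega) (by omega) (by omega)
  have iN := Hf_rec n x (y := 1) hn'
  have iS := Hf_rec n x (y := 0) (by omega)
  have vN := vL_eq n (x := x - 1) (j := 1) (by omega) (by omega) (by omega) hn'
  have vS := vL_eq0 n (x := x - 1) (by omega) (by omega)
  obtain ⟨rE1, rE2⟩ := rel_h n (a := x) (b := 0) (by omega) h2 (by omega) (by omega)
  obtain ⟨rW1, rW2⟩ := rel_h n (a := x - 1) (b := 0) (by omega) (by omega) (by omega) (by omega)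
  obtain ⟨rN1, rN2⟩ := rel_v n (a := x - 1) (b := 1) (by omega) (by omega) (by omega) hn'
  obtain ⟨rS1, rS2⟩ := rel_v0 n (a := x - 1) (by omega) (by omega)
  unfold vL vR at *
  simp only [sub_add_cancel, zero_add, sub_self, show (1 : ℤ) + 1 = 2 by norm_num] at *
  obtain ⟨NE, hNE⟩ : ∃ t, t = q n x 1 (x, 1) := ⟨_, rfl⟩
  obtain ⟨NW, hNW⟩ : ∃ t, t = q n (x - 1) 1 (x, 1) := ⟨_, rfl⟩
  obtain ⟨SW, hSW⟩ : ∃ t, t = q n (x - 1) 0 (x, 1) := ⟨_, rfl⟩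
  obtain ⟨SE, hSE⟩ : ∃ t, t = q n x 0 (x, 1) := ⟨_, rfl⟩
  rw [← hNE, ← hSE] at rE1
  rw [← hNW, ← hSW] at rW2
  rw [← hNE, ← hNW] at rN1
  rw [← hSE, ← hSW] at rS2
  have qE : q n x 0 (x + 1, 1) = √2 * SE - NE := by linarith
  have qW : q n (x - 1) 0 (x - 1, 1) = √2 * SW - NW := by linarith
  have qN : q n (x - 1) 1 (x, 2) = √2 * NW + NE := by linarith
  have qS : q n (x - 1) 0 (x, 0) = √2 * SW - SE := by linarith
  rw [qE, ← hSE] at iE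
  rw [qW, ← hSW] at iW
  rw [vN, qN, ← hNW] at iN
  rw [vS, qS, ← hSW] at iS
  have key := four SE SW NW (-NE)
  have hs := s2
  have k1 : (√2 * SE - NE) ^ 2 - SE ^ 2 = SE ^ 2 - 2 * √2 * SE * NE + NE ^ 2 := by
    have : (√2 * SE - NE) ^ 2 - SE ^ 2 = √2 ^ 2 * SE ^ 2 - 2 * √2 * SE * NE + NE ^ 2 - SE ^ 2 := by
      ring
    rw [this, hs]; ring
  have k2 : (√2 * SW - NW) ^ 2 - SW ^ 2 = SW ^ 2 - 2 * √2 * SW * NW + NW ^ 2 := by
    have : (√2 * SW - NW) ^ 2 - SW ^ 2 = √2 ^ 2 * SW ^ 2 - 2 * √2 * SW * NW + NW ^ 2 - SW ^ 2 := by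
      ring
    rw [this, hs]; ring
  have k3 : (√2 * NW + NE) ^ 2 - NW ^ 2 = NW ^ 2 + 2 * √2 * NW * NE + NE ^ 2 := by
    have : (√2 * NW + NE) ^ 2 - NW ^ 2 = √2 ^ 2 * NW ^ 2 + 2 * √2 * NW * NE + NE ^ 2 - NW ^ 2 := by
      ring
    rw [this, hs]; ring
  have k4 : (√2 * SW - SE) ^ 2 - SW ^ 2 = SW ^ 2 - 2 * √2 * SW * SE + SE ^ 2 := by
    have : (√2 * SW - SE) ^ 2 - SW ^ 2 = √2 ^ 2 * SW ^ 2 - 2 * √2 * SW * SE + SE ^ 2 - SW ^ 2 := by
      ring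
    rw [this, hs]; ring
  rw [k1] at iE
  have iW' : Hf n (x - 1) 1 - Hf n x 1 = SW ^ 2 - 2 * √2 * SW * NW + NW ^ 2 := by linarith
  have iN' : Hf n x 2 - Hf n x 1 = NW ^ 2 + 2 * √2 * NW * NE + NE ^ 2 := by linarith
  have iS' : Hf n x 0 - Hf n x 1 = SW ^ 2 - 2 * √2 * SW * SE + SE ^ 2 := by linarith
  rw [iE, iW', iN', iS']
  linarith

/-- the quadratic form at a vertex above the slit -/
lemma three (m a b : ℝ) : 2 * (√2 - 1) * m ^ 2 ≤ 2 * m ^ 2 + 2 * a ^ 2 + 2 * b ^ 2 -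
    2 * √2 * (m * a - a * b + b * m) := by
  have hs := s2
  have h0 : 0 ≤ √2 := Real.sqrt_nonneg 2
  have h1 : √2 ≤ 2 := by
    rw [Real.sqrt_le_left (by norm_num)]
    norm_num
  have key : 2 * m ^ 2 + 2 * a ^ 2 + 2 * b ^ 2 - 2 * √2 * (m * a - a * b + b * m) -
      2 * (√2 - 1) * m ^ 2 = (1 - √2 / 2) * (a - b) ^ 2 +
        (1 + √2 / 2) * (a + b - (2 * √2 - 2) * m) ^ 2 := by
    have h3 : √2 ^ 3 = 2 * √2 := by rw [pow_succ, hs]
    ring_nf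
    rw [h3, hs]
    ring
  have k1 : 0 ≤ (1 - √2 / 2) * (a - b) ^ 2 := mul_nonneg (by linarith) (sq_nonneg _)
  have k2 : 0 ≤ (1 + √2 / 2) * (a + b - (2 * √2 - 2) * m) ^ 2 :=
    mul_nonneg (by linarith) (sq_nonneg _)
  linarith

lemma lap_slit (n : ℕ) {x : ℤ} (h1 : -(n : ℤ) ≤ x) (h2 : x ≤ -1) :
    0 ≤ (Hf n (x + 1) 1 - Hf n x 1) + (Hf n (x - 1) 1 - Hf n x 1) + (Hf n x 2 - Hf n x 1) := by
  have hn' : (1 : ℤ) ≤ n := by omega
  have iE := horB n (x := x) (y := 1) (by omega) (by omega) (by omega) (by omega)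
  have iW := horB n (x := x - 1) (y := 1) (by omega) (by omega) (by omega) (by omega)
  have iN := Hf_rec n x (y := 1) hn'
  have vN := vL_eq n (x := x - 1) (j := 1) (by omega) (by omega) (by omega) hn'
  obtain ⟨rE1, rE2⟩ := rel_h n (a := x) (b := 0) (by omega) (by omega) (by omega) (by omega)
  obtain ⟨rW1, rW2⟩ := rel_h n (a := x - 1) (b := 0) (by omega) (by omega) (by omega) (by omega)
  obtain ⟨rN1, rN2⟩ := rel_v n (a := x - 1) (b := 1) (by omega) (by omega) (by omega) hn'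
  unfold vL vR at *
  simp only [sub_add_cancel, zero_add, sub_self, show (1 : ℤ) + 1 = 2 by norm_num] at *
  obtain ⟨NE, hNE⟩ : ∃ t, t = q n x 1 (x, 1) := ⟨_, rfl⟩
  obtain ⟨NW, hNW⟩ : ∃ t, t = q n (x - 1) 1 (x, 1) := ⟨_, rfl⟩
  obtain ⟨M, hM⟩ : ∃ t, t = mg n (x, 1) := ⟨_, rfl⟩
  have hSW : q n (x - 1) 0 (x, 1) = M := by rw [q_neg n (by omega), hM]
  have hSE : q n x 0 (x, 1) = M := by rw [q_neg n (by omega), hM]
  rw [← hNE, hSE] at rE1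
  rw [← hNW, hSW] at rW2
  rw [← hNE, ← hNW] at rN1
  have qE : q n x 0 (x + 1, 1) = √2 * M - NE := by linarith
  have qW : q n (x - 1) 0 (x - 1, 1) = √2 * M - NW := by linarith
  have qN : q n (x - 1) 1 (x, 2) = √2 * NW + NE := by linarith
  rw [qE, hSE] at iE
  rw [qW, hSW] at iW
  rw [vN, qN, ← hNW] at iN
  have key := three M NE NW
  have hs := s2
  have k1 : (√2 * M - NE) ^ 2 - M ^ 2 = M ^ 2 - 2 * √2 * M * NE + NE ^ 2 := by
    have : (√2 * M - NE) ^ 2 - M ^ 2 = √2 ^ 2 * M ^ 2 - 2 * √2 * M * NE + NE ^ 2 - M ^ 2 := by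
      ring
    rw [this, hs]; ring
  have k2 : (√2 * M - NW) ^ 2 - M ^ 2 = M ^ 2 - 2 * √2 * M * NW + NW ^ 2 := by
    have : (√2 * M - NW) ^ 2 - M ^ 2 = √2 ^ 2 * M ^ 2 - 2 * √2 * M * NW + NW ^ 2 - M ^ 2 := by
      ring
    rw [this, hs]; ring
  have k3 : (√2 * NW + NE) ^ 2 - NW ^ 2 = NW ^ 2 + 2 * √2 * NW * NE + NE ^ 2 := by
    have : (√2 * NW + NE) ^ 2 - NW ^ 2 = √2 ^ 2 * NW ^ 2 + 2 * √2 * NW * NE + NE ^ 2 - NW ^ 2 := by
      ring
    rw [this, hs]; ring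
  rw [k1] at iE
  have iW' : Hf n (x - 1) 1 - Hf n x 1 = M ^ 2 - 2 * √2 * M * NW + NW ^ 2 := by linarith
  have iN' : Hf n x 2 - Hf n x 1 = NW ^ 2 + 2 * √2 * NW * NE + NE ^ 2 := by linarith
  rw [iE, iW', iN']
  have hM2 : 0 ≤ 2 * (√2 - 1) * M ^ 2 := by
    have : 1 ≤ √2 := by
      rw [show (1 : ℝ) = √1 by simp]
      exact Real.sqrt_le_sqrt (by norm_num)
    exact mul_nonneg (by linarith) (sq_nonneg _)
  linarith

lemma lap_axis (n : ℕ) {x : ℤ} (h1 : 1 ≤ x) (h2 : x ≤ n) :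
    0 ≤ (Hf n (x + 1) 0 - Hf n x 0) + (Hf n (x - 1) 0 - Hf n x 0) +
      2 * (Hf n x 1 - Hf n x 0) := by
  have hn : 1 ≤ n := by omega
  have iE := hor0 n (x := x) (by omega) h2
  have iW := hor0 n (x := x - 1) (by omega) (by omega)
  have iN := Hf_rec n x (y := 0) (by omega)
  have vN := vL_eq0 n (x := x - 1) (by omega) (by omega)
  have aE := rel_x n hn (x := x) (by omega) h2
  have aW := rel_x n hn (x := x - 1) (by omega) (by omega)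
  obtain ⟨rN1, rN2⟩ := rel_v0 n (a := x - 1) (by omega) (by omega)
  unfold vL vR at *
  simp only [sub_add_cancel, zero_add] at *
  obtain ⟨f, hf⟩ : ∃ t, t = q n x 0 (x, 0) := ⟨_, rfl⟩
  obtain ⟨g, hg⟩ : ∃ t, t = q n (x - 1) 0 (x - 1, 0) := ⟨_, rfl⟩
  rw [← hf] at aE rN1 iE
  rw [← hg] at aW iW
  have qN : q n (x - 1) 0 (x, 1) = √2 * ((1 + √2) * g) - f := by rw [aW] at rN1; linarith
  rw [aE] at iE
  rw [aW] at iW
  rw [vN, qN, aW] at iN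
  have hs := s2
  have iE' : Hf n (x + 1) 0 - Hf n x 0 = (2 + 2 * √2) * f ^ 2 := by
    rw [iE]
    have : ((1 + √2) * f) ^ 2 - f ^ 2 = (2 * √2 + √2 ^ 2) * f ^ 2 := by ring
    rw [this, hs]; ring
  have iW' : Hf n (x - 1) 0 - Hf n x 0 = - (2 + 2 * √2) * g ^ 2 := by
    have : Hf n (x - 1) 0 - Hf n x 0 = - (2 * √2 + √2 ^ 2) * g ^ 2 := by linarith
    rw [this, hs]; ring
  have iN' : Hf n x 1 - Hf n x 0 = (3 + 2 * √2) * g ^ 2 - 2 * (√2 + 2) * f * g + f ^ 2 := by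
    have h : Hf n x 1 - Hf n x 0 = (√2 * ((1 + √2) * g) - f) ^ 2 - ((1 + √2) * g) ^ 2 := by
      linarith
    have e1 : √2 * ((1 + √2) * g) = (√2 + 2) * g := by
      have : √2 * ((1 + √2) * g) = (√2 + √2 ^ 2) * g := by ring
      rw [this, hs]
    have e2 : (√2 + 2) ^ 2 = 6 + 4 * √2 := by
      have : (√2 + 2) ^ 2 = √2 ^ 2 + 4 * √2 + 4 := by ring
      rw [this, hs]; ring
    have e3 : (1 + √2) ^ 2 = 3 + 2 * √2 := by
      have : (1 + √2) ^ 2 = 1 + 2 * √2 + √2 ^ 2 := by ring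
      rw [this, hs]; ring
    rw [h, e1]
    have : ((√2 + 2) * g - f) ^ 2 - ((1 + √2) * g) ^ 2 =
      (√2 + 2) ^ 2 * g ^ 2 - 2 * (√2 + 2) * f * g + f ^ 2 - (1 + √2) ^ 2 * g ^ 2 := by ring
    rw [this, e2, e3]
    ring
  rw [iE', iW', iN']
  have k : (2 + 2 * √2) * f ^ 2 + - (2 + 2 * √2) * g ^ 2 +
      2 * ((3 + 2 * √2) * g ^ 2 - 2 * (√2 + 2) * f * g + f ^ 2) =
      (4 + 2 * √2) * (f - g) ^ 2 := by ring
  rw [k]
  have : 0 ≤ √2 := Real.sqrt_nonneg 2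
  exact mul_nonneg (by linarith) (sq_nonneg _)

lemma lap_tip (n : ℕ) (hn : 1 ≤ n) : 2 * (√2 - 1) * Hf n 0 0 ≤
    (Hf n 1 0 - Hf n 0 0) + 2 * (Hf n 0 1 - Hf n 0 0) := by
  have iE := hor0 n (x := 0) (by omega) (by omega)
  have iN := Hf_rec n 0 (y := 0) (by omega)
  have vN := vL_eq0 n (x := -1) (by omega) (by omega)
  have aE := rel_x n hn (x := 0) (by omega) (by omega)
  obtain ⟨rN1, rN2⟩ := rel_v0 n (a := -1) (by omega) (by omega)
  unfold vL vR at *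
  simp only [show (-1 : ℤ) + 1 = 0 by norm_num, zero_add] at *
  obtain ⟨f, hf⟩ : ∃ t, t = q n 0 0 (0, 0) := ⟨_, rfl⟩
  obtain ⟨M, hM⟩ : ∃ t, t = mg n (0, 0) := ⟨_, rfl⟩
  have hM' : q n (-1) 0 (0, 0) = M := by rw [q_neg n (by norm_num), hM]
  rw [← hf] at aE rN1 iE
  rw [hM'] at rN1 vN
  have qN : q n (-1) 0 (0, 1) = √2 * M - f := by linarith
  rw [aE] at iE
  rw [vN, qN] at iN
  rw [Hf_tip, ← hM]
  rw [Hf_tip, ← hM] at iE iN
  have hs := s2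
  have iE' : Hf n 1 0 - M ^ 2 = (2 + 2 * √2) * f ^ 2 := by
    rw [iE]
    have : ((1 + √2) * f) ^ 2 - f ^ 2 = (2 * √2 + √2 ^ 2) * f ^ 2 := by ring
    rw [this, hs]; ring
  have iN' : Hf n 0 1 - M ^ 2 = M ^ 2 - 2 * √2 * f * M + f ^ 2 := by
    have h : Hf n 0 1 - M ^ 2 = (√2 * M - f) ^ 2 - M ^ 2 := by linarith
    have : (√2 * M - f) ^ 2 - M ^ 2 = √2 ^ 2 * M ^ 2 - 2 * √2 * f * M + f ^ 2 - M ^ 2 := by ring
    rw [h, this, hs]; ring
  rw [iE', iN']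
  have k : (2 + 2 * √2) * f ^ 2 + 2 * (M ^ 2 - 2 * √2 * f * M + f ^ 2) -
      2 * (√2 - 1) * M ^ 2 = (4 + 2 * √2) * (f - (√2 - 1) * M) ^ 2 := by
    have h3 : √2 ^ 3 = 2 * √2 := by rw [pow_succ, hs]
    ring_nf
    rw [h3, hs]
    ring
  have h0 : 0 ≤ √2 := Real.sqrt_nonneg 2
  have h1 : 0 ≤ (4 + 2 * √2) * (f - (√2 - 1) * M) ^ 2 := mul_nonneg (by linarith) (sq_nonneg _)
  linarith

end Pool.Agent.Y993.GM
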