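import Pool.Agent.W599.IG.Qrel
import Pool.Agent.W337.IG.Vol

set_option autoImplicit false

/-!
# The critical Ising model in a slit box: Kadanoff-Ceva correlators

The slit box is `[-n,n]²` without the vertices `(x,0)`, `x ≤ -1`. The disorder lines start at a
face of the closed upper half plane, go down to the row of faces above the axis, and then to the
left, to the slit.
-/

open Finset hiding box

noncomputable section

namespace Pool.Agent.Y993.GM

open Pool.Agent.W854.IG Pool.Agent.W599.IGQ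

/-- the slit inside `box n` -/
def slit (n : ℕ) : Finset Pt := Finset.Icc (-(n : ℤ)) (-1) ×ˢ ({0} : Finset ℤ)

lemma mem_slit {n : ℕ} {p : Pt} : p ∈ slit n ↔ (-(n : ℤ) ≤ p.1 ∧ p.1 ≤ -1) ∧ p.2 = 0 := by
  unfold slit
  rw [Finset.mem_product, Finset.mem_Icc, Finset.mem_singleton]

/-- the slit box -/
def dom (n : ℕ) : Finset Pt := box n \ slit n

lemma mem_dom {n : ℕ} {p : Pt} : p ∈ dom n ↔
    ((-(n : ℤ) ≤ p.1 ∧ p.1 ≤ n) ∧ (-(n : ℤ) ≤ p.2 ∧ p.2 ≤ n)) ∧ ¬ (p.1 ≤ -1 ∧ p.2 = 0) := by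
  unfold dom
  rw [Finset.mem_sdiff, mem_box, mem_slit]
  constructor
  · rintro ⟨h1, h2⟩
    exact ⟨h1, fun h => h2 ⟨⟨h1.1.1, h.1⟩, h.2⟩⟩
  · rintro ⟨h1, h2⟩
    exact ⟨h1, fun h => h2 ⟨h.1.2, h.2⟩⟩

/-- the edges of the slit box -/
def dE (n : ℕ) : Finset (Pt × Bool) :=
  (edges n).filter (fun e => e.1 ∉ slit n ∧ nb e ∉ slit n)

lemma mem_dE {n : ℕ} {e : Pt × Bool} : e ∈ dE n ↔
    (e.1 ∈ box n ∨ nb e ∈ box n) ∧ e.1 ∉ slit n ∧ nb e ∉ slit n := by
  unfold dE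
  rw [Finset.mem_filter, mem_edges]

section General
variable {P ι : Type} [DecidableEq P] [DecidableEq ι]

lemma step (Λ : Finset P) (τ : P → Bool) (E : Finset ι) (a b : ι → P) (J J' : ι → ℝ)
    (U : Finset P) (hU : U ⊆ Λ) (e0 : ι) (he0 : e0 ∈ E) (h0 : J e0 = βc)
    (h0' : J' e0 * (sgn U (a e0) * sgn U (b e0)) = -βc)
    (h : ∀ e ∈ E, e ≠ e0 → J' e * (sgn U (a e) * sgn U (b e)) = J e) (f : (P → Bool) → ℝ) :
    Zg Λ τ E a b J' f =
      Zg Λ τ E a b J (fun σ => f (flipU U σ) * (√2 - sp (σ (a e0)) * sp (σ (b e0)))) := by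
  rw [Zg_gauge Λ τ E a b J' U hU f]
  exact Zg_flip Λ τ E a b J (fun e => J' e * (sgn U (a e) * sgn U (b e))) e0 he0 h0 h0' h
    (fun σ => f (flipU U σ))

omit [DecidableEq ι] in
lemma Zg_lin (Λ : Finset P) (τ : P → Bool) (E : Finset ι) (a b : ι → P) (J : ι → ℝ)
    (c d : ℝ) (f g : (P → Bool) → ℝ) :
    Zg Λ τ E a b J (fun σ => c * f σ + d * g σ) =
      c * Zg Λ τ E a b J f + d * Zg Λ τ E a b J g := by
  rw [Zg_add, Zg_const_mul, Zg_const_mul]

lemma step_a (Λ : Finset P) (τ : P → Bool) (E : Finset ι) (a b : ι → P) (J J' : ι → ℝ)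
    (U : Finset P) (hU : U ⊆ Λ) (e0 : ι) (he0 : e0 ∈ E) (h0 : J e0 = βc)
    (h0' : J' e0 * (sgn U (a e0) * sgn U (b e0)) = -βc)
    (h : ∀ e ∈ E, e ≠ e0 → J' e * (sgn U (a e) * sgn U (b e)) = J e) :
    Zg Λ τ E a b J' (fun σ => sp (σ (a e0))) = sgn U (a e0) *
      (√2 * Zg Λ τ E a b J (fun σ => sp (σ (a e0))) - Zg Λ τ E a b J (fun σ => sp (σ (b e0)))) := by
  rw [step Λ τ E a b J J' U hU e0 he0 h0 h0' h, mul_sub]
  have h1 := Zg_lin Λ τ E a b J (sgn U (a e0) * √2) (-sgn U (a e0))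
    (fun σ => sp (σ (a e0))) (fun σ => sp (σ (b e0)))
  have h2 : sgn U (a e0) * (√2 * Zg Λ τ E a b J (fun σ => sp (σ (a e0)))) -
      sgn U (a e0) * Zg Λ τ E a b J (fun σ => sp (σ (b e0))) =
      sgn U (a e0) * √2 * Zg Λ τ E a b J (fun σ => sp (σ (a e0))) +
        -sgn U (a e0) * Zg Λ τ E a b J (fun σ => sp (σ (b e0))) := by ring
  rw [h2, ← h1]
  congr 1
  funext σ
  rw [sp_flipU]
  have := sp_mul_self (σ (a e0))
  linear_combination (-sgn U (a e0) * sp (σ (b e0))) * this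

lemma step_b (Λ : Finset P) (τ : P → Bool) (E : Finset ι) (a b : ι → P) (J J' : ι → ℝ)
    (U : Finset P) (hU : U ⊆ Λ) (e0 : ι) (he0 : e0 ∈ E) (h0 : J e0 = βc)
    (h0' : J' e0 * (sgn U (a e0) * sgn U (b e0)) = -βc)
    (h : ∀ e ∈ E, e ≠ e0 → J' e * (sgn U (a e) * sgn U (b e)) = J e) :
    Zg Λ τ E a b J' (fun σ => sp (σ (b e0))) = sgn U (b e0) *
      (√2 * Zg Λ τ E a b J (fun σ => sp (σ (b e0))) - Zg Λ τ E a b J (fun σ => sp (σ (a e0)))) := by
  rw [step Λ τ E a b J J' U hU e0 he0 h0 h0' h, mul_sub]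
  have h1 := Zg_lin Λ τ E a b J (sgn U (b e0) * √2) (-sgn U (b e0))
    (fun σ => sp (σ (b e0))) (fun σ => sp (σ (a e0)))
  have h2 : sgn U (b e0) * (√2 * Zg Λ τ E a b J (fun σ => sp (σ (b e0)))) -
      sgn U (b e0) * Zg Λ τ E a b J (fun σ => sp (σ (a e0))) =
      sgn U (b e0) * √2 * Zg Λ τ E a b J (fun σ => sp (σ (b e0))) +
        -sgn U (b e0) * Zg Λ τ E a b J (fun σ => sp (σ (a e0))) := by ring
  rw [h2, ← h1]
  congr 1
  funext σ
  rw [sp_flipU]
  have := sp_mul_self (σ (b e0))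
  linear_combination (-sgn U (b e0) * sp (σ (a e0))) * this

end General

/-- the partition function of the slit box -/
def Zn (n : ℕ) : ℝ := Zg (dom n) (fun _ => true) (dE n) Prod.fst nb (fun _ => βc) (fun _ => 1)

lemma Zn_pos (n : ℕ) : 0 < Zn n := Zg_one_pos _ _ _ _ _ _

/-- correlator with general couplings -/
def qJ (n : ℕ) (J : Pt × Bool → ℝ) (p : Pt) : ℝ :=
  Zg (dom n) (fun _ => true) (dE n) Prod.fst nb J (fun σ => sp (σ p)) / Zn n

/-- the couplings with the disorder line of the face `(a,b)` -/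
def sgs (a b : ℤ) (e : Pt × Bool) : ℝ :=
  if (e.2 = true ∧ e.1.1 = a ∧ 1 ≤ e.1.2 ∧ e.1.2 ≤ b) ∨
    (e.2 = false ∧ e.1.2 = 0 ∧ 0 ≤ e.1.1 ∧ e.1.1 ≤ a) then -βc else βc

/-- the Kadanoff-Ceva correlator of the spin at `p` and the disorder at the face `(a,b)` -/
def q (n : ℕ) (a b : ℤ) (p : Pt) : ℝ := qJ n (sgs a b) p

/-- magnetisation in the slit box -/
def mg (n : ℕ) (p : Pt) : ℝ := qJ n (fun _ => βc) p

lemma qJ_out (n : ℕ) (J : Pt × Bool → ℝ) {p p' : Pt} (h : p ∉ dom n) (h' : p' ∉ dom n) :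
    qJ n J p = qJ n J p' := by
  unfold qJ
  congr 1
  apply Zg_congr_fun
  intro σ hσ
  rw [mem_cf] at hσ
  rw [hσ p h, hσ p' h']

lemma mg_out (n : ℕ) {p : Pt} (h : p ∉ dom n) : mg n p = 1 := by
  unfold mg qJ Zn
  rw [div_eq_one_iff_eq (Zg_one_pos _ _ _ _ _ _).ne']
  apply Zg_congr_fun
  intro σ hσ
  rw [mem_cf] at hσ
  rw [hσ p h, sp_true]

lemma q_neg (n : ℕ) {a : ℤ} (ha : a ≤ -1) (p : Pt) : q n a 0 p = mg n p := by
  unfold q mg
  congr 1
  funext e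
  unfold sgs
  rw [if_neg]
  rintro (h | h) <;> omega

lemma qJ_step_a (n : ℕ) (J J' : Pt × Bool → ℝ) (U : Finset Pt) (hU : U ⊆ dom n)
    (e0 : Pt × Bool) (he0 : e0 ∈ dE n) (h0 : J e0 = βc)
    (h0' : J' e0 * (sgn U e0.1 * sgn U (nb e0)) = -βc)
    (h : ∀ e ∈ dE n, e ≠ e0 → J' e * (sgn U e.1 * sgn U (nb e)) = J e) :
    qJ n J' e0.1 = sgn U e0.1 * (√2 * qJ n J e0.1 - qJ n J (nb e0)) := by
  unfold qJ
  rw [step_a (dom n) (fun _ => true) (dE n) Prod.fst nb J J' U hU e0 he0 h0 h0' h]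
  ring

lemma qJ_step_b (n : ℕ) (J J' : Pt × Bool → ℝ) (U : Finset Pt) (hU : U ⊆ dom n)
    (e0 : Pt × Bool) (he0 : e0 ∈ dE n) (h0 : J e0 = βc)
    (h0' : J' e0 * (sgn U e0.1 * sgn U (nb e0)) = -βc)
    (h : ∀ e ∈ dE n, e ≠ e0 → J' e * (sgn U e.1 * sgn U (nb e)) = J e) :
    qJ n J' (nb e0) = sgn U (nb e0) * (√2 * qJ n J (nb e0) - qJ n J e0.1) := by
  unfold qJ
  rw [step_b (dom n) (fun _ => true) (dE n) Prod.fst nb J J' U hU e0 he0 h0 h0' h]
  ring

lemma sgn_empty (p : Pt) : sgn (∅ : Finset Pt) p = 1 := by simp [sgn]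

/-- crossing a horizontal edge -/
lemma rel_h (n : ℕ) {a b : ℤ} (ha : -(n : ℤ) - 1 ≤ a) (ha' : a ≤ n) (hb : 0 ≤ b) (hb' : b + 1 ≤ n) :
    q n a (b + 1) (a, b + 1) = √2 * q n a b (a, b + 1) - q n a b (a + 1, b + 1) ∧
    q n a (b + 1) (a + 1, b + 1) = √2 * q n a b (a + 1, b + 1) - q n a b (a, b + 1) := by
  have he0 : (((a, b + 1) : Pt), true) ∈ dE n := by
    rw [mem_dE, mem_box, mem_box, mem_slit, mem_slit]
    simp only [nb_true]
    omega
  have h0 : sgs a b ((a, b + 1), true) = βc := by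
    unfold sgs; rw [if_neg]; simp
  have h0' : sgs a (b + 1) ((a, b + 1), true) *
      (sgn ∅ ((a, b + 1) : Pt) * sgn ∅ (nb ((a, b + 1), true))) = -βc := by
    rw [sgn_empty, sgn_empty]
    unfold sgs
    rw [if_pos]
    · ring
    · left; exact ⟨rfl, rfl, by simp only; omega, le_rfl⟩
  have h : ∀ e ∈ dE n, e ≠ (((a, b + 1) : Pt), true) →
      sgs a (b + 1) e * (sgn ∅ e.1 * sgn ∅ (nb e)) = sgs a b e := by
    rintro ⟨⟨x, y⟩, d⟩ _ hne
    rw [sgn_empty, sgn_empty]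
    have hne' : ¬ (d = true ∧ x = a ∧ y = b + 1) := by
      rintro ⟨h1, h2, h3⟩
      exact hne (by rw [h1, h2, h3])
    unfold sgs
    simp only [mul_one]
    cases d
    · simp
    · simp only [true_and, false_and, or_false, Bool.true_eq_false] at hne' ⊢
      by_cases h1 : x = a ∧ 1 ≤ y ∧ y ≤ b
      · rw [if_pos h1, if_pos (by omega)]
      · rw [if_neg h1, if_neg (by omega)]
  have k1 := qJ_step_a n (sgs a b) (sgs a (b + 1)) ∅ (Finset.empty_subset _) _ he0 h0 h0' h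
  have k2 := qJ_step_b n (sgs a b) (sgs a (b + 1)) ∅ (Finset.empty_subset _) _ he0 h0 h0' h
  rw [sgn_empty, one_mul] at k1 k2
  simp only [nb_true] at k1 k2
  exact ⟨k1, k2⟩

/-- crossing a vertical edge above the first row -/
lemma rel_v (n : ℕ) {a b : ℤ} (ha : -(n : ℤ) ≤ a + 1) (ha' : a + 1 ≤ n) (hb : 1 ≤ b) (hb' : b ≤ n) :
    q n (a + 1) b (a + 1, b) = -(√2 * q n a b (a + 1, b) - q n a b (a + 1, b + 1)) ∧
    q n (a + 1) b (a + 1, b + 1) = √2 * q n a b (a + 1, b + 1) - q n a b (a + 1, b) := by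
  set U : Finset Pt := ({a + 1} : Finset ℤ) ×ˢ Finset.Icc 1 b with hU
  have hmem : ∀ x y : ℤ, ((x, y) : Pt) ∈ U ↔ x = a + 1 ∧ 1 ≤ y ∧ y ≤ b := by
    intro x y
    rw [hU, Finset.mem_product, Finset.mem_singleton, Finset.mem_Icc]
  have hsub : U ⊆ dom n := by
    rintro ⟨x, y⟩ hp
    rw [hmem] at hp
    rw [mem_dom]
    simp only
    omega
  have hsg : ∀ x y : ℤ, sgn U ((x, y) : Pt) = if x = a + 1 ∧ 1 ≤ y ∧ y ≤ b then -1 else 1 := by
    intro x y
    unfold sgn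
    simp only [hmem]
  have he0 : (((a + 1, b) : Pt), false) ∈ dE n := by
    rw [mem_dE, mem_box, mem_box, mem_slit, mem_slit]
    simp only [nb_false]
    omega
  have h0 : sgs a b ((a + 1, b), false) = βc := by
    unfold sgs; rw [if_neg]; simp
  have h0' : sgs (a + 1) b ((a + 1, b), false) *
      (sgn U ((a + 1, b) : Pt) * sgn U (nb ((a + 1, b), false))) = -βc := by
    rw [nb_false, hsg, hsg, if_pos ⟨rfl, hb, le_rfl⟩, if_neg (by simp)]
    unfold sgs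
    rw [if_neg]
    · ring
    · simp only [Bool.false_eq_true, false_and, true_and, false_or]; omega
  have h : ∀ e ∈ dE n, e ≠ (((a + 1, b) : Pt), false) →
      sgs (a + 1) b e * (sgn U e.1 * sgn U (nb e)) = sgs a b e := by
    rintro ⟨⟨x, y⟩, d⟩ he hne
    have hne' : ¬ (d = false ∧ x = a + 1 ∧ y = b) := by
      rintro ⟨h1, h2, h3⟩
      exact hne (by rw [h1, h2, h3])
    rw [mem_dE, mem_box, mem_box, mem_slit, mem_slit] at he
    cases d
    · simp only [nb_false, true_and] at he hne' ⊢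
      rw [hsg, hsg]
      unfold sgs
      simp only [Bool.false_eq_true, false_and, true_and, false_or]
      by_cases hx : x = a + 1
      · subst hx
        by_cases hy : y = 0
        · subst hy
          rw [if_neg (show ¬ (a + 1 = a + 1 ∧ (1 : ℤ) ≤ 0 ∧ (0 : ℤ) ≤ b) by omega),
            if_pos (show (a + 1 = a + 1 ∧ (1 : ℤ) ≤ 0 + 1 ∧ (0 : ℤ) + 1 ≤ b) by omega),
            if_pos (by omega), if_neg (by omega)]
          ring
        · rw [if_neg (show ¬ (y = 0 ∧ 0 ≤ a + 1 ∧ a + 1 ≤ a + 1) by omega),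
            if_neg (show ¬ (y = 0 ∧ 0 ≤ a + 1 ∧ a + 1 ≤ a) by omega)]
          by_cases h1 : 1 ≤ y ∧ y ≤ b
          · rw [if_pos ⟨rfl, h1⟩, if_pos (by omega)]
            ring
          · rw [if_neg (fun h => h1 h.2), if_neg (by omega)]
            ring
      · rw [if_neg (show ¬ (x = a + 1 ∧ 1 ≤ y ∧ y ≤ b) by omega),
          if_neg (show ¬ (x = a + 1 ∧ 1 ≤ y + 1 ∧ y + 1 ≤ b) by omega)]
        by_cases h1 : y = 0 ∧ 0 ≤ x ∧ x ≤ a
        · rw [if_pos h1, if_pos (by omega)]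
          ring
        · rw [if_neg h1, if_neg (by omega)]
          ring
    · simp only [nb_true] at he hne' ⊢
      rw [hsg, hsg]
      unfold sgs
      simp only [true_and, Bool.true_eq_false, false_and, or_false]
      by_cases hy : 1 ≤ y ∧ y ≤ b
      · by_cases hA : x = a + 1
        · rw [if_pos ⟨hA, hy⟩, if_pos ⟨hA, hy⟩, if_neg (by omega), if_neg (by omega)]
          ring
        · by_cases hB : x = a
          · rw [if_neg (by omega), if_neg (by omega), if_pos (by omega), if_pos ⟨hB, hy⟩]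
            ring
          · rw [if_neg (by omega), if_neg (by omega), if_neg (by omega), if_neg (by omega)]
            ring
      · rw [if_neg (by omega), if_neg (by omega), if_neg (by omega), if_neg (by omega)]
        ring
  have k1 := qJ_step_a n (sgs a b) (sgs (a + 1) b) U hsub _ he0 h0 h0' h
  have k2 := qJ_step_b n (sgs a b) (sgs (a + 1) b) U hsub _ he0 h0 h0' h
  simp only [nb_false] at k1 k2
  rw [hsg, if_pos ⟨rfl, hb, le_rfl⟩] at k1
  rw [hsg, if_neg (by simp)] at k2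
  exact ⟨by unfold q; rw [k1]; ring, by unfold q; rw [k2]; ring⟩

/-- crossing a vertical edge of the first row -/
lemma rel_v0 (n : ℕ) {a : ℤ} (ha : 0 ≤ a + 1) (ha' : a + 1 ≤ n) :
    q n (a + 1) 0 (a + 1, 0) = √2 * q n a 0 (a + 1, 0) - q n a 0 (a + 1, 1) ∧
    q n (a + 1) 0 (a + 1, 1) = √2 * q n a 0 (a + 1, 1) - q n a 0 (a + 1, 0) := by
  have he0 : (((a + 1, 0) : Pt), false) ∈ dE n := by
    rw [mem_dE, mem_box, mem_box, mem_slit, mem_slit]
    simp only [nb_false]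
    omega
  have h0 : sgs a 0 ((a + 1, 0), false) = βc := by
    unfold sgs; rw [if_neg]; simp
  have h0' : sgs (a + 1) 0 ((a + 1, 0), false) *
      (sgn ∅ ((a + 1, 0) : Pt) * sgn ∅ (nb ((a + 1, 0), false))) = -βc := by
    rw [sgn_empty, sgn_empty]
    unfold sgs
    rw [if_pos]
    · ring
    · right; simp only [true_and]; omega
  have h : ∀ e ∈ dE n, e ≠ (((a + 1, 0) : Pt), false) →
      sgs (a + 1) 0 e * (sgn ∅ e.1 * sgn ∅ (nb e)) = sgs a 0 e := by
    rintro ⟨⟨x, y⟩, d⟩ _ hne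
    rw [sgn_empty, sgn_empty]
    have hne' : ¬ (d = false ∧ x = a + 1 ∧ y = 0) := by
      rintro ⟨h1, h2, h3⟩
      exact hne (by rw [h1, h2, h3])
    unfold sgs
    simp only [mul_one]
    cases d
    · simp only [true_and, false_and, false_or, Bool.false_eq_true] at hne' ⊢
      by_cases h1 : y = 0 ∧ 0 ≤ x ∧ x ≤ a
      · rw [if_pos h1, if_pos (by omega)]
      · rw [if_neg h1, if_neg (by omega)]
    · simp only [true_and, false_and, or_false, Bool.true_eq_false]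
      rw [if_neg (by omega), if_neg (by omega)]
  have k1 := qJ_step_a n (sgs a 0) (sgs (a + 1) 0) ∅ (Finset.empty_subset _) _ he0 h0 h0' h
  have k2 := qJ_step_b n (sgs a 0) (sgs (a + 1) 0) ∅ (Finset.empty_subset _) _ he0 h0 h0' h
  rw [sgn_empty, one_mul] at k1 k2
  simp only [nb_false, zero_add] at k1 k2
  exact ⟨k1, k2⟩

end Pool.Agent.Y993.GM
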